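import Pool.Agent.Helper61.MM.DefsB

set_option autoImplicit false

/-!
# Deterministic consequences of `Ok`
-/

namespace Pool.Agent.Helper99.MS

open Pool.Agent.Helper60.TJ Pool.Agent.Helper61.MM
open scoped symmDiff

theorem isCyc_emp : IsCyc (∅ : Finset Ed) := by
  intro v
  simp [par, ind]

theorem bdy_eq_emp {D : Finset Ed} (h : IsCyc D) : bdy D = ∅ := by
  unfold bdy
  rw [Finset.filter_eq_empty_iff]
  intro v _ hv
  rw [h v] at hv
  exact Bool.false_ne_true hv

theorem tg_of_cyc (g : Gm) {D : Finset Ed} (h : IsCyc D) : tg g D = g := by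
  unfold tg
  rw [bdy_eq_emp h]
  exact Prod.ext (symmDiff_bot _) rfl

theorem ww_tg (g : Gm) (D : Finset Ed) (ω : Env) : ww (tg g D) ω = ww g ω := rfl

end Pool.Agent.Helper99.MS

namespace Pool.Agent.Helper61.MM

open Pool.Agent.Helper60.TJ Pool.Agent.Helper99.MS
open scoped symmDiff

variable {ω : Env} {s : Vl}

theorem Ok.hh_emp (h : Ok ω s) (g : Gm) : hh s g ∅ = 0 := by
  have h1 := h.coc g ∅ ∅
  rw [tg_of_cyc g isCyc_emp] at h1
  have h2 : (∅ : Finset Ed) ∆ ∅ = ∅ := symmDiff_self _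
  rw [h2] at h1
  linarith

theorem Ok.hh_tg (h : Ok ω s) (g : Gm) (D D' : Finset Ed) :
    hh s (tg g D) D' = hh s g (D ∆ D') - hh s g D := by
  have := h.coc g D D'
  linarith

theorem Ok.hh_self (h : Ok ω s) (g : Gm) (D : Finset Ed) :
    hh s (tg g D) D = -hh s g D := by
  rw [h.hh_tg, symmDiff_self]
  have := h.hh_emp g
  rw [Finset.bot_eq_empty, this]
  ring

theorem Ok.hh_cyc (h : Ok ω s) (g : Gm) {D : Finset Ed} (hD : IsCyc D) :
    hh s g D = 0 := by
  have h1 := h.hh_self g D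
  rw [tg_of_cyc g hD] at h1
  linarith

theorem Ok.hh_congr (h : Ok ω s) (g : Gm) {D D' : Finset Ed}
    (hD : IsCyc (D ∆ D')) : hh s g D = hh s g D' := by
  have h1 := h.hh_tg g D (D ∆ D')
  rw [symmDiff_symmDiff_cancel_left, h.hh_cyc _ hD] at h1
  linarith

theorem Ok.ww_pos (h : Ok ω s) (g : Gm) (e : Ed) : 0 < ww g ω e := by
  unfold ww
  split_ifs
  · exact (h.pos e).2
  · exact (h.pos e).1

theorem Ok.abs_hh_le (h : Ok ω s) (g : Gm) (e : Ed) :
    |hh s g {e}| ≤ ww g ω e := by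
  have key : ∀ g' : Gm, hh s g' {e} ≤ ww g' ω e := by
    intro g'
    refine (h.le g' {e} {e} rfl).trans ?_
    unfold en
    rw [Finset.sum_singleton]
    have h1 := h.ww_pos g' e
    unfold sg
    split_ifs
    · linarith
    · linarith
  rw [abs_le]
  constructor
  · have h2 := key (tg g {e})
    rw [h.hh_self, ww_tg] at h2
    linarith
  · exact key g

theorem Ok.step (h : Ok ω s) (g : Gm) (D : Finset Ed) (e : Ed) :
    |hh s g (D ∆ {e}) - hh s g D| ≤ ww g ω e := by
  rw [← h.hh_tg]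
  exact h.abs_hh_le (tg g D) e

theorem Ok.le_en (h : Ok ω s) (g : Gm) (X : Finset Ed) :
    hh s g X ≤ en (ww g ω) (uu s g) X := h.le g X X rfl

/-- changing `D` by `X` changes the energy at most by the weight of `X` -/
theorem Ok.abs_sub_le (h : Ok ω s) (g : Gm) (D X : Finset Ed) :
    |hh s g (D ∆ X) - hh s g D| ≤ tw (ww g ω) X := by
  classical
  induction X using Finset.induction_on with
  | empty =>
    have h1 : D ∆ (∅ : Finset Ed) = D := symmDiff_bot D
    rw [h1]
    simp [tw]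
  | insert e X he ih =>
    have h1 : (insert e X : Finset Ed) = X ∆ {e} := by
      ext a
      simp only [Finset.mem_insert, Finset.mem_symmDiff, Finset.mem_singleton]
      constructor
      · rintro (rfl | h)
        · exact Or.inr ⟨rfl, he⟩
        · exact Or.inl ⟨h, fun h' => he (h' ▸ h)⟩
      · rintro (⟨h, _⟩ | ⟨h, _⟩)
        · exact Or.inr h
        · exact Or.inl h
    have h2 : D ∆ (X ∆ {e}) = (D ∆ X) ∆ {e} := (symmDiff_assoc D X {e}).symm
    have h3 := h.step g (D ∆ X) e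
    have h4 : tw (ww g ω) (insert e X) = ww g ω e + tw (ww g ω) X := Finset.sum_insert he
    rw [h4, h1, h2]
    calc |hh s g ((D ∆ X) ∆ {e}) - hh s g D|
        = |(hh s g ((D ∆ X) ∆ {e}) - hh s g (D ∆ X)) + (hh s g (D ∆ X) - hh s g D)| := by
          congr 1; ring
      _ ≤ |hh s g ((D ∆ X) ∆ {e}) - hh s g (D ∆ X)| + |hh s g (D ∆ X) - hh s g D| :=
          abs_add_le _ _
      _ ≤ ww g ω e + tw (ww g ω) X := add_le_add h3 ih

end Pool.Agent.Helper61.MM
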