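import Pool.Agent.Helper99.MS.SubB

set_option autoImplicit false

/-!
# The upper bound for the wall energies, abstract form: conclusion
-/

namespace Pool.Agent.Helper99.MS

open Pool.Agent.Helper60.TJ Pool.Agent.Helper99.TJ
open scoped symmDiff ENNReal
open MeasureTheory Filter Topology

variable {μ : Measure ℝ} {Ω : Type*} [MeasurableSpace Ω] {P : Measure Ω} {J : Ω → Ed → ℝ}
  {U₁ U₂ : Ω → Ed → Bool} {h₁ h₂ : Ω → Finset Ed → ℝ}

theorem average' {Q : Measure XX} (hinv : ∀ u : Vx, MeasurePreserving (shX u) Q Q) {A : Set YY}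
    (hA : MeasurableSet A) (n : ℕ) :
    ((box n).card : ℝ≥0∞) * nuM Q A =
      ∑ z ∈ box n ×ˢ (Finset.univ : Finset Dir), Q {p | On (wl p) z ∧ yz p z ∈ A} := by
  rw [Finset.sum_product, nuM_eq Q hA]
  have h1 : ∀ x ∈ box n, ∑ d : Dir, Q {p | On (wl p) (x, d) ∧ yz p (x, d) ∈ A} =
      ∑ d : Dir, Q {p | wl p (edg 0 d) = true ∧ (p, d) ∈ A} := fun x _ =>
    Finset.sum_congr rfl fun d _ => by
      have h1 := (hinv x).measure_preimage (measurableSet_dir hA d).nullMeasurableSet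
      rw [← h1]
      congr 1
      ext p
      show (wl p (edg x d) = true ∧ _) ↔ (wl (shX x p) (edg 0 d) = true ∧ _)
      rw [wl_shX, sh_edg, zero_add]
      rfl
  rw [Finset.sum_congr rfl h1, Finset.sum_const, nsmul_eq_mul]

theorem lintegral_HZ' {Q : Measure XX} (hinv : ∀ u : Vx, MeasurePreserving (shX u) Q Q)
    (n m : ℕ) (lam : ℝ) :
    ((box n).card : ℝ≥0∞) * nuM Q {y | lam ≤ |Vn m y|} =
      ∫⁻ p, (((HZ p n m lam).card : ℕ) : ℝ≥0∞) ∂Q := by
  classical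
  have hA : MeasurableSet {y : YY | lam ≤ |Vn m y|} :=
    measurableSet_le measurable_const (measurable_Vn m).abs
  have hB : ∀ z : DE, MeasurableSet {p : XX | On (wl p) z ∧ yz p z ∈ {y : YY | lam ≤ |Vn m y|}} := by
    intro z
    have h1 : MeasurableSet {p : XX | On (wl p) z} := by
      have h2 : Measurable (fun p : XX => wl p (edg z.1 z.2)) :=
        (measurable_pi_apply _).comp measurable_wl
      exact measurableSet_eq_fun h2 measurable_const
    exact h1.inter (measurable_yz z hA)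
  rw [average' hinv hA]
  have h1 : ∀ p : XX, (((HZ p n m lam).card : ℕ) : ℝ≥0∞) =
      ∑ z ∈ box n ×ˢ (Finset.univ : Finset Dir),
        Set.indicator {p : XX | On (wl p) z ∧ yz p z ∈ {y : YY | lam ≤ |Vn m y|}} 1 p := by
    intro p
    unfold HZ
    rw [Finset.card_filter]
    push_cast
    refine Finset.sum_congr rfl fun z _ => ?_
    by_cases h : On (wl p) z ∧ lam ≤ |Vn m (yz p z)|
    · rw [if_pos h, Set.indicator_of_mem]
      · rfl
      · exact h
    · rw [if_neg h, Set.indicator_of_notMem]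
      exact h
  simp_rw [h1]
  rw [lintegral_finsetSum _ fun z _ => measurable_one.indicator (hB z)]
  refine Finset.sum_congr rfl fun z _ => ?_
  rw [lintegral_indicator_one (hB z)]

theorem measurable_HZ (n m : ℕ) (lam : ℝ) :
    Measurable fun p : XX => (((HZ p n m lam).card : ℕ) : ℝ≥0∞) := by
  classical
  have hA : MeasurableSet {y : YY | lam ≤ |Vn m y|} :=
    measurableSet_le measurable_const (measurable_Vn m).abs
  have hB : ∀ z : DE, MeasurableSet {p : XX | On (wl p) z ∧ yz p z ∈ {y : YY | lam ≤ |Vn m y|}} := by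
    intro z
    have h2 : Measurable (fun p : XX => wl p (edg z.1 z.2)) :=
      (measurable_pi_apply _).comp measurable_wl
    exact (measurableSet_eq_fun h2 measurable_const).inter ((measurable_yz z) hA)
  have h1 : (fun p : XX => (((HZ p n m lam).card : ℕ) : ℝ≥0∞)) = fun p =>
      ∑ z ∈ box n ×ˢ (Finset.univ : Finset Dir),
        Set.indicator {p : XX | On (wl p) z ∧ yz p z ∈ {y : YY | lam ≤ |Vn m y|}} 1 p := by
    funext p
    unfold HZ
    rw [Finset.card_filter]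
    push_cast
    refine Finset.sum_congr rfl fun z _ => ?_
    by_cases h : On (wl p) z ∧ lam ≤ |Vn m (yz p z)|
    · rw [if_pos h, Set.indicator_of_mem]
      · rfl
      · exact h
    · rw [if_neg h, Set.indicator_of_notMem]
      exact h
  rw [h1]
  exact Finset.measurable_sum _ fun z _ => measurable_one.indicator (hB z)

/-- what is needed about the law `Q` of the pairs of replicas -/
structure PairLaw (μ : Measure ℝ) {Ω : Type*} [MeasurableSpace Ω] (P : Measure Ω)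
    (J : Ω → Ed → ℝ) (U₁ U₂ : Ω → Ed → Bool) (h₁ h₂ : Ω → Finset Ed → ℝ) (Q : Measure XX) :
    Prop where
  e₁ : EnS μ P J U₁ h₁
  e₂ : EnS μ P J U₂ h₂
  mU₁ : Measurable U₁
  mU₂ : Measurable U₂
  inv : ∀ u : Vx, MeasurePreserving (shX u) Q Q
  le : Q ≤ P.map fun ω => ((J ω, U₁ ω, U₂ ω) : XX)
  gs : ∀ᵐ ω ∂P, ∀ C : Finset Ed, IsCyc C →
    0 ≤ en (wt (J ω)) (U₁ ω) C ∧ 0 ≤ en (wt (J ω)) (U₂ ω) C
  deg : ∀ᵐ p ∂Q, Deg2 (wl p)
  ac : ∀ᵐ p ∂Q, ∀ C : Finset Ed, IsCyc C → (∀ e ∈ C, wl p e = true) → C = ∅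

/-- **Part H1, abstract form.** -/
theorem PairLaw.nu_large [IsProbabilityMeasure P] [IsProbabilityMeasure μ] {Q : Measure XX}
    (hQ : PairLaw μ P J U₁ U₂ h₁ h₂ Q)
    {q M : ℝ} (hM : ∀ Λ : ℝ, 0 < Λ → μ {x | Λ < |x|} ≤ ENNReal.ofReal (M / Λ ^ q)) (hM0 : 0 ≤ M)
    {n m : ℕ} (hn : 1 ≤ n) (hmn : m ≤ n) {Λ lam : ℝ} (hΛ : 0 < Λ) (hlam : 0 < lam) :
    nuM Q {y | lam ≤ |Vn m y|} ≤ ENNReal.ofReal
      (8 * n * NB (2 * n) Λ lam / (2 * n + 1) ^ 2 +
        8 * (4 / (2 * (2 * n : ℕ) + 1) ^ 2 + 4 * (2 * (2 * n : ℕ) + 1) ^ 2 * (M / Λ ^ q))) := by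
  classical
  set b : ℝ := 4 / (2 * (2 * n : ℕ) + 1) ^ 2 + 4 * (2 * (2 * n : ℕ) + 1) ^ 2 * (M / Λ ^ q) with hb
  have hb0 : 0 ≤ b := by positivity
  set c : ℝ := 8 * n * NB (2 * n) Λ lam with hc
  have hc0 : 0 ≤ c := by
    have := NB_nonneg (2 * n) (Λ := Λ) (lam := lam)
    positivity
  obtain ⟨B₁, hB₁, hg₁⟩ := hQ.e₁.exists_bad hM hM0 (L := 2 * n) (by omega) hΛ
  obtain ⟨B₂, hB₂, hg₂⟩ := hQ.e₂.exists_bad hM hM0 (L := 2 * n) (by omega) hΛ
  set Φ : Ω → XX := fun ω => (J ω, U₁ ω, U₂ ω) with hΦ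
  have hΦm : Measurable Φ := hQ.e₁.mJ.prodMk (hQ.mU₁.prodMk hQ.mU₂)
  set N : Set XX := toMeasurable Q {p | ¬ (Deg2 (wl p) ∧
    ∀ C : Finset Ed, IsCyc C → (∀ e ∈ C, wl p e = true) → C = ∅)} with hN
  have hNm : MeasurableSet N := measurableSet_toMeasurable _ _
  have hN0 : Q N = 0 := by
    rw [hN, measure_toMeasurable]
    exact ae_iff.1 (hQ.deg.and hQ.ac)
  set B : Set XX := {p | ENNReal.ofReal c < (((HZ p n m lam).card : ℕ) : ℝ≥0∞)} with hB
  have hBm : MeasurableSet B := measurableSet_lt measurable_const (measurable_HZ n m lam)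
  have hQB : Q B ≤ ENNReal.ofReal (2 * b) := by
    have h1 : Q B ≤ Q (B \ N) + Q N := by
      refine (measure_mono ?_).trans (measure_union_le _ _)
      intro p hp
      by_cases h : p ∈ N
      · exact Or.inr h
      · exact Or.inl ⟨hp, h⟩
    rw [hN0, add_zero] at h1
    refine h1.trans ((hQ.le _).trans ?_)
    rw [Measure.map_apply hΦm (hBm.diff hNm)]
    have h2 : P (Φ ⁻¹' (B \ N)) ≤ P (B₁ ∪ B₂) := by
      refine measure_mono_ae ?_
      filter_upwards [hg₁, hg₂, hQ.gs] with ω k₁ k₂ k₃ hω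
      have hω' : Φ ω ∈ B \ N := hω
      by_contra hcon
      have hcon' : ω ∉ B₁ ∪ B₂ := hcon
      rw [Set.mem_union, not_or] at hcon'
      have hgood : (Deg2 (wl (Φ ω)) ∧
          ∀ C : Finset Ed, IsCyc C → (∀ e ∈ C, wl (Φ ω) e = true) → C = ∅) := by
        by_contra h
        exact hω'.2 (subset_toMeasurable _ _ h)
      have h3 := count_abs' hgood.1 hgood.2 (fun C hC => (k₃ C hC).1) (fun C hC => (k₃ C hC).2)
        hmn hΛ hlam
        (k₁ hcon'.1).2 (k₂ hcon'.2).2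
      have h4 : ENNReal.ofReal c < (((HZ (Φ ω) n m lam).card : ℕ) : ℝ≥0∞) := hω'.1
      rw [← ENNReal.ofReal_natCast, ENNReal.ofReal_lt_ofReal_iff_of_nonneg hc0] at h4
      linarith
    refine h2.trans ((measure_union_le _ _).trans ?_)
    rw [two_mul, ENNReal.ofReal_add hb0 hb0]
    exact add_le_add hB₁ hB₂
  have hQu : Q Set.univ ≤ 1 := by
    refine (hQ.le _).trans ?_
    rw [Measure.map_apply hΦm MeasurableSet.univ, Set.preimage_univ, measure_univ]
  have hpt : ∀ p : XX, (((HZ p n m lam).card : ℕ) : ℝ≥0∞) ≤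
      ENNReal.ofReal c + B.indicator (fun _ => ENNReal.ofReal (4 * (2 * n + 1) ^ 2)) p := by
    intro p
    by_cases hpB : p ∈ B
    · rw [Set.indicator_of_mem hpB]
      refine le_trans ?_ le_add_self
      rw [← ENNReal.ofReal_natCast]
      refine ENNReal.ofReal_le_ofReal ?_
      exact_mod_cast card_HZ_le p n m lam
    · exact (not_lt.1 hpB).trans le_self_add
  have h1 : ((box n).card : ℝ≥0∞) * nuM Q {y | lam ≤ |Vn m y|} ≤
      ENNReal.ofReal (c + 4 * (2 * n + 1) ^ 2 * (2 * b)) := by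
    rw [lintegral_HZ' hQ.inv]
    refine (lintegral_mono hpt).trans ?_
    rw [lintegral_add_left measurable_const, lintegral_const, lintegral_indicator_const hBm,
      ENNReal.ofReal_add (by positivity) (by positivity),
      ENNReal.ofReal_mul (by positivity : (0:ℝ) ≤ 4 * (2 * n + 1) ^ 2)]
    refine add_le_add ?_ (mul_le_mul' le_rfl hQB)
    calc ENNReal.ofReal c * Q Set.univ ≤ ENNReal.ofReal c * 1 := mul_le_mul' le_rfl hQu
      _ = ENNReal.ofReal c := mul_one _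
  have hcard : ((box n).card : ℝ≥0∞) = ENNReal.ofReal ((2 * n + 1) ^ 2) := by
    rw [card_box, ← ENNReal.ofReal_natCast]; push_cast; rfl
  rw [hcard] at h1
  have hpos : (0:ℝ) < (2 * n + 1) ^ 2 := by positivity
  have h2 : c + 4 * (2 * n + 1) ^ 2 * (2 * b) =
      (2 * n + 1) ^ 2 * (c / (2 * n + 1) ^ 2 + 8 * b) := by
    field_simp
    ring
  rw [h2, ENNReal.ofReal_mul hpos.le] at h1
  exact (ENNReal.mul_le_mul_iff_right (ENNReal.ofReal_pos.2 hpos).ne' ENNReal.ofReal_ne_top).1 h1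

/-- **The upper bound, abstract form.** -/
theorem PairLaw.sub [IsProbabilityMeasure P] [IsProbabilityMeasure μ] {Q : Measure XX}
    (hQ : PairLaw μ P J U₁ U₂ h₁ h₂ Q) {q : ℝ} (hq : 24 < q)
    (hmom : Integrable (fun x : ℝ => |x| ^ q) μ) {δ : ℝ} (hδ : 0 < δ) :
    ∃ n₁ : ℕ, ∀ n ≥ n₁, ∀ m ≤ n, (nuM Q).real {y | (n : ℝ) < |Vn m y| ^ 3} ≤ δ := by
  set M : ℝ := ∫ x, |x| ^ q ∂μ with hM
  have hM0 : 0 ≤ M := integral_nonneg fun x => by positivity
  set a : ℝ := 1 / q + 1 / 24 with ha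
  have hq0 : 0 < q := by linarith
  have haq : a * q = 1 + q / 24 := by
    rw [ha]; field_simp
  have ha1 : a < 1 / 12 := by
    have : 1 / q < 1 / 24 := one_div_lt_one_div_of_lt (by norm_num) hq
    rw [ha]; linarith
  set s : ℝ := (1 / 3 - 4 * a) / 2 with hs
  have hs0 : 0 < s := by rw [hs]; linarith
  set ε : ℝ := (1 / 3 - 4 * a) / 4 with hεd
  have hε : 0 < ε := by rw [hεd]; linarith
  set s2 : ℝ := a * q - 2 with hs2
  have hs20 : 0 < s2 := by rw [hs2, haq]; linarith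
  set C1 : ℝ := (8 * 108 ^ 2 * 4 * 5 ^ (2 * ε) / ε ^ 2) with hC1
  have hlim : Tendsto (fun n : ℕ => C1 * (n:ℝ) ^ (-s) +
      8 * (4 * (1 : ℕ) * (n:ℝ) ^ (-1 : ℝ) + (100 * M) * (n:ℝ) ^ (-s2))) atTop (𝓝 0) := by
    have h1 : ∀ t : ℝ, 0 < t → Tendsto (fun n : ℕ => (n:ℝ) ^ (-t)) atTop (𝓝 0) := fun t ht =>
      (tendsto_rpow_neg_atTop ht).comp tendsto_natCast_atTop_atTop
    have h2 := ((h1 s hs0).const_mul C1).add
      (((((h1 1 one_pos).const_mul (4 * ((1 : ℕ) : ℝ))).add ((h1 s2 hs20).const_mul (100 * M)))).const_mul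
        (8 : ℝ))
    simpa using h2
  obtain ⟨n₀, hn₀⟩ := eventually_atTop.1 (hlim.eventually_le_const hδ)
  refine ⟨max n₀ 1, fun n hn m hmn => ?_⟩
  have hn1 : 1 ≤ n := le_trans (le_max_right _ _) hn
  have hnR : (1:ℝ) ≤ n := by exact_mod_cast hn1
  have hn0 : (0:ℝ) < n := by linarith
  have hkey := hQ.nu_large (M := M) (q := q) (fun Λ hΛ => markov_rpow hq0 hmom hΛ) hM0
    hn1 hmn (Λ := (n:ℝ) ^ a) (lam := (n:ℝ) ^ (1 / 3 : ℝ)) (by positivity) (by positivity)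
  have hsub : nuM Q {y | (n : ℝ) < |Vn m y| ^ 3} ≤ nuM Q {y | (n:ℝ) ^ (1 / 3 : ℝ) ≤ |Vn m y|} := by
    refine measure_mono fun y hy => ?_
    by_contra hcon
    have hcon' : |Vn m y| < (n:ℝ) ^ (1 / 3 : ℝ) := not_le.1 hcon
    have h1 : |Vn m y| ^ 3 < ((n:ℝ) ^ (1 / 3 : ℝ)) ^ 3 :=
      pow_lt_pow_left₀ hcon' (abs_nonneg _) (by norm_num)
    have h2 : ((n:ℝ) ^ (1 / 3 : ℝ)) ^ 3 = n := by
      rw [← Real.rpow_natCast ((n:ℝ) ^ (1 / 3 : ℝ)) 3, ← Real.rpow_mul hn0.le]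
      norm_num
    rw [h2] at h1
    exact absurd hy (not_lt.2 h1.le)
  have hbd : nuM Q {y | (n : ℝ) < |Vn m y| ^ 3} ≤ ENNReal.ofReal δ := by
    refine hsub.trans (hkey.trans (ENNReal.ofReal_le_ofReal ?_))
    refine le_trans ?_ (hn₀ n (le_trans (le_max_left _ _) hn))
    have t1 := term_one (a := a) (ε := ε) (s := s) hε (by rw [hs, hεd]; ring) hn1
    have t2 := term_two hn1 1
    have t3 := term_three (a := a) (q := q) (M := M) (s := s2) hM0 (by rw [hs2]; ring) hn1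
    rw [Nat.cast_one, mul_one] at t2
    refine add_le_add t1 ?_
    rw [Nat.cast_one, mul_one]
    exact mul_le_mul_of_nonneg_left (add_le_add t2 t3) (by norm_num)
  rw [Measure.real]
  exact ENNReal.toReal_le_of_le_ofReal hδ.le hbd

end Pool.Agent.Helper99.MS
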