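import Pool.Agent.Helper99.MS.SubC
import Pool.Agent.Helper99.MS.OkL
import Pool.Agent.Helper5.MMRepB

set_option autoImplicit false

/-!
# The upper bound for the wall energies of replica pairs
-/

namespace Pool.Agent.Helper99.MS

open MeasureTheory ProbabilityTheory Filter Topology Pool.Agent.Helper60.TJ
open Pool.Agent.Helper61.MM Pool.Agent.Helper5.MM
open scoped symmDiff

theorem measurable_hh (g : Gm) (D : Finset Ed) : Measurable fun s : Vl => hh s g D :=
  (measurable_pi_apply D).comp (measurable_fst.comp (measurable_snd.comp (measurable_pi_apply g)))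

/-! ### the law of the weights -/

theorem map_bE0_R {lam : Measure ℝ} {κ : Kernel WT Rs} {R : Measure Om} (hl : Wgt lam)
    (hR : IsR lam κ R) : R.map (fun z => bE0 z.1) = PB lam := by
  have := hl.prob
  have := hR.mark
  have h1 : (fun z : Om => bE0 z.1) = Prod.fst ∘ obs := rfl
  rw [h1, ← Measure.map_map measurable_fst meas_obs, map_obs hR]
  exact Measure.fst_compProd _ _

theorem map_ww_R {lam : Measure ℝ} {κ : Kernel WT Rs} {R : Measure Om} (hl : Wgt lam)
    (hR : IsR lam κ R) : R.map (fun z => ww g0 z.1) = PP lam := by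
  have := hl.prob
  have h1 : (fun z : Om => ww g0 z.1) = Prod.fst ∘ (fun z : Om => bE0 z.1) := by
    funext z e
    simp [ww, bE0]
  have h2 := Measure.map_map (μ := R) measurable_fst (meas_bE0.comp measurable_fst)
  have h3 : Measure.map (bE0 ∘ Prod.fst) R = PB lam := map_bE0_R hl hR
  rw [h3, Measure.map_fst_prod, measure_univ, one_smul] at h2
  rw [h1]
  exact h2.symm

/-! ### the abstract hypotheses -/

theorem enS {lam : Measure ℝ} {κ : Kernel WT Rs} {R : Measure Om} (hl : Wgt lam)
    (hR : IsR lam κ R) (i : Fin 3) :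
    EnS lam R (fun z => ww g0 z.1) (fun z => uu (rp z i) g0) (fun z D => hh (rp z i) g0 D) := by
  have hok : ∀ᵐ z ∂(R), Ok z.1 (rp z i) := hR.ok.mono fun z h => h i
  refine ⟨(meas_ww g0).comp measurable_fst, fun D => (measurable_hh g0 D).comp
    (meas_rp i), map_ww_R hl hR, ?_, ?_, ?_, ?_, ?_⟩
  · filter_upwards [hok] with z h e
    exact (h.ww_pos g0 e).ne'
  · intro D
    refine ⟨aO (bdy D, ∅), hR.act _, Eventually.of_forall fun z e => ?_, ?_⟩
    · simp [ww, aO, aE]
    · filter_upwards [hok] with z h D'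
      have h1 : hh (rp (aO (bdy D, ∅) z) i) g0 D' = hh (rp z i) (tg g0 D) D' := by
        rw [rp_aO]
        unfold hh aV
        rw [gad_g0]
        have h2 : ((bdy D, ∅) : Gm) = tg g0 D := Prod.ext (bot_symmDiff _).symm rfl
        rw [h2]
      rw [h1, h.hh_tg]
  · filter_upwards [hok] with z h D e
    rw [abs_of_pos (h.ww_pos g0 e)]
    exact h.step g0 D e
  · filter_upwards [hok] with z h D D' hD
    exact h.hh_congr g0 hD
  · filter_upwards [hok] with z h X
    rw [wt_of_pos (h.ww_pos g0)]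
    exact h.le_en g0 X

/-- **The upper bound**, from the structure of the walls. -/
theorem sub_of {lam : Measure ℝ} {κ : Kernel WT Rs} {R : Measure Om} {q : ℝ} (hl : Wgt lam)
    (hR : IsR lam κ R) (hq : 24 < q) (hm : Integrable (fun x => |x| ^ q) lam)
    (hdeg : ∀ᵐ p ∂(QQ R), Deg2 (wl p))
    (hac : ∀ᵐ p ∂(QQ R), ∀ C : Finset Ed, IsCyc C → (∀ e ∈ C, wl p e = true) → C = ∅) :
    SubD (QQ R) := by
  have := hl.prob
  have := hR.prob
  have hP : PairLaw lam R (fun z => ww g0 z.1) (fun z => uu (rp z 0) g0)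
      (fun z => uu (rp z 1) g0) (fun z D => hh (rp z 0) g0 D) (fun z D => hh (rp z 1) g0 D)
      (QQ R) := by
    refine ⟨enS hl hR 0, enS hl hR 1, (meas_uu g0).comp (meas_rp 0),
      (meas_uu g0).comp (meas_rp 1), inv_QQ hR, ?_, ?_, hdeg, hac⟩
    · exact Measure.map_mono Measure.restrict_le_self (meas_pr 0 1 g0)
    · filter_upwards [hR.ok] with z h C hC
      rw [wt_of_pos ((h 0).ww_pos g0)]
      exact ⟨((h 0).mem g0).2 C hC, ((h 1).mem g0).2 C hC⟩
  exact fun δ hδ => hP.sub hq hm hδ

end Pool.Agent.Helper99.MS
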