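import Pool.Agent.Helper99.MS.IsR

set_option autoImplicit false

/-!
# Laws of pairs of replicas: no eigenfunctions, no tightness (CL)
-/

namespace Pool.Agent.Helper99.MS

open Pool.Agent.Helper60.TJ Pool.Agent.Helper60.TJ.G1
open scoped symmDiff ENNReal
open MeasureTheory Filter Topology

variable {μ : Measure ℝ} {Q : Measure XX}

/-- the space of one resampled coupling -/
def SdZ (Z : Set (XX × ℝ)) (d : Dir) : Set (XX × ℝ) := {q | wl q.1 (edg 0 d) = true} ∩ Z

theorem law1Z [IsProbabilityMeasure μ] (Q : Measure XX) [SFinite Q] (Z : Set (XX × ℝ))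
    (d : Dir) :
    ((Q.prod μ).restrict (SdZ Z d)).map (fun q : XX × ℝ => ((q.1, d) : YY)) ≤ nuM Q := by
  refine le_trans ?_ (nu_le Q d)
  rw [Measure.le_iff]
  intro s hs
  have m1 : Measurable (fun q : XX × ℝ => ((q.1, d) : YY)) := measurable_fst.prodMk measurable_const
  have m2 : Measurable (fun p : XX => ((p, d) : YY)) := measurable_id.prodMk measurable_const
  have hw : MeasurableSet {p : XX | wl p (edg 0 d) = true} :=
    measurableSet_eq_fun ((measurable_pi_apply (edg 0 d)).comp measurable_wl) measurable_const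
  rw [Measure.map_apply m1 hs, Measure.map_apply m2 hs, Measure.restrict_apply (m1 hs),
    Measure.restrict_apply (m2 hs)]
  have h1 : (fun q : XX × ℝ => ((q.1, d) : YY)) ⁻¹' s ∩ SdZ Z d ⊆
      Prod.fst ⁻¹' ((fun p : XX => ((p, d) : YY)) ⁻¹' s ∩ {p | wl p (edg 0 d) = true}) :=
    fun q hq => ⟨hq.1, hq.2.1⟩
  refine (measure_mono h1).trans ?_
  rw [measurePreserving_fst.measure_preimage ((m2 hs).inter hw).nullMeasurableSet]

theorem law2Z {Z : Set (XX × ℝ)} {d : Dir}
    (hres : ((Q.prod μ).restrict Z).map (updX (edg 0 d)) ≤ Q) :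
    ((Q.prod μ).restrict (SdZ Z d)).map (fun q : XX × ℝ => ((updX (edg 0 d) q, d) : YY)) ≤ nuM Q := by
  refine le_trans ?_ (nu_le Q d)
  rw [Measure.le_iff]
  intro s hs
  have m1 : Measurable (fun q : XX × ℝ => ((updX (edg 0 d) q, d) : YY)) :=
    (measurable_updX _).prodMk measurable_const
  have m2 : Measurable (fun p : XX => ((p, d) : YY)) := measurable_id.prodMk measurable_const
  have hw : MeasurableSet {p : XX | wl p (edg 0 d) = true} :=
    measurableSet_eq_fun ((measurable_pi_apply (edg 0 d)).comp measurable_wl) measurable_const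
  rw [Measure.map_apply m1 hs, Measure.map_apply m2 hs, Measure.restrict_apply (m1 hs),
    Measure.restrict_apply (m2 hs)]
  have h1 : (fun q : XX × ℝ => ((updX (edg 0 d) q, d) : YY)) ⁻¹' s ∩ SdZ Z d ⊆
      updX (edg 0 d) ⁻¹' ((fun p : XX => ((p, d) : YY)) ⁻¹' s ∩ {p | wl p (edg 0 d) = true}) ∩
        Z :=
    fun q hq => ⟨⟨hq.1, hq.2.1⟩, hq.2.2⟩
  refine (measure_mono h1).trans ?_
  rw [← Measure.restrict_apply (measurable_updX _ ((m2 hs).inter hw)),
    ← Measure.map_apply (measurable_updX _) ((m2 hs).inter hw)]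
  exact hres _

theorem IsR.supp_ae [IsProbabilityMeasure μ] (hQ : IsR μ Q) (e : Ed) : ∀ᵐ p ∂Q, p.1 e ∈ μ.support := by
  have h1 : PP μ {J | J e ∉ μ.support} = 0 := by
    have h2 := (measurePreserving_eval_infinitePi (fun _ : Ed => μ) e).measure_preimage
      (s := μ.supportᶜ) Measure.isOpen_compl_support.measurableSet.nullMeasurableSet
    have h3 : μ μ.supportᶜ = 0 := Measure.support_mem_ae
    rw [h3] at h2
    exact h2
  have h4 := hQ.fst_le {J | J e ∉ μ.support}
  rw [h1] at h4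
  exact le_antisymm h4 zero_le

theorem IsR.no_eig [IsProbabilityMeasure μ] (hμ : ∀ x : ℝ, μ {x} = 0)
    (hQ : IsR μ Q) {l : ℝ} (hl : l ≠ 0) {h : YY → ℂ} (hm : Measurable h)
    (hi : Integrable h (nuM Q))
    (heq : ∀ᵐ y ∂(nuM Q), Complex.exp (l * xv y * Complex.I) * h (Th y) = h y) :
    ∀ᵐ y ∂(nuM Q), h y = 0 := by
  have : IsFiniteMeasure (nuM Q) := ⟨hQ.nu_univ_lt⟩
  have : IsFiniteMeasure Q := hQ.isFinite
  have hTh := hQ.mp_Th
  have hrv := hQ.mp_rv
  have hGY := hQ.nu_ae_GY
  have hpos := fun v => pos_tend hGY v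
  have key : ∀ d : Dir, ∀ᵐ p ∂Q, wl p (edg 0 d) = true → h (p, d) = 0 := by
    intro d
    obtain ⟨Z, hZm, hZ1, hZ2⟩ := hQ.res (edg 0 d)
    have mA : Measurable (fun q : XX × ℝ => ((q.1, d) : YY)) :=
      measurable_fst.prodMk measurable_const
    have mB : Measurable (fun q : XX × ℝ => ((updX (edg 0 d) q, d) : YY)) :=
      (measurable_updX _).prodMk measurable_const
    have tw : ∀ q : XX × ℝ, Tw (edg 0 d) (q.1, d) (updX (edg 0 d) q, d) := fun q =>
      ⟨rfl, rfl, fun f hf => upd_ne _ hf _⟩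
    have c1 : Cpl ((Q.prod μ).restrict (SdZ Z d)) (nuM Q) (edg 0 d)
        (fun q : XX × ℝ => ((q.1, d) : YY)) (fun q => (updX (edg 0 d) q, d)) :=
      ⟨mA, mB, law1Z Q Z d, law2Z hZ1, Eventually.of_forall tw⟩
    have c2 : Cpl ((Q.prod μ).restrict (SdZ Z d)) (nuM Q) (edg 0 d)
        (fun q : XX × ℝ => rv ((q.1, d) : YY)) (fun q => rv (updX (edg 0 d) q, d)) := by
      refine ⟨measurable_rv.comp mA, measurable_rv.comp mB, ?_, ?_,
        Eventually.of_forall fun q => (tw q).rv⟩
      · have h1 := Measure.map_mono (law1Z (μ := μ) Q Z d) measurable_rv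
        rw [Measure.map_map measurable_rv mA, hrv.map_eq] at h1
        exact h1
      · have h1 := Measure.map_mono (law2Z hZ1) measurable_rv
        rw [Measure.map_map measurable_rv mB, hrv.map_eq] at h1
        exact h1
    have gA : ∀ᵐ q ∂((Q.prod μ).restrict (SdZ Z d)), GY (q.1, d) := law_ae c1.mA c1.lA hGY
    have gB : ∀ᵐ q ∂((Q.prod μ).restrict (SdZ Z d)), GY (updX (edg 0 d) q, d) :=
      law_ae c1.mB c1.lB hGY
    have r1 := core c1 hTh hpos hm heq (gA.mono fun q hq n => wedge_ne hq n)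
    have r2 := core c2 hTh hpos (hm.comp measurable_rv) (eig_rv hTh hrv hGY heq)
      (gA.mono fun q hq n => wedge_rv_ne hq (n + 1))
    have r3 : ∀ᵐ q ∂((Q.prod μ).restrict (SdZ Z d)), h (q.1, d) =
        Complex.exp (-(l * (xv (updX (edg 0 d) q, d) - xv (q.1, d)) * Complex.I)) *
          h (q.1, d) := by
      filter_upwards [r1, r2, gA, gB] with q h1 h2 g1 g2
      have e0 : xv (rv (updX (edg 0 d) q, d)) = xv (rv (q.1, d)) :=
        (tw q).rv.xv 0 (wedge_rv_ne g1 0)
      simp only [Function.comp] at h2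
      rw [e0, rv_rv g1, rv_rv g2, sub_self, mul_zero, zero_mul, neg_zero, Complex.exp_zero,
        one_mul] at h2
      rw [← h2] at h1
      exact h1
    have r4 := ae_imp_of_ae_restrict r3
    have r5 := Measure.ae_ae_of_ae_prod r4
    filter_upwards [r5, hQ.nz, hZ2, hQ.supp_ae (edg 0 d)] with p hp hn hflx hs hwl
    by_contra hne
    obtain ⟨δ, hδ, hflex⟩ := hflx
    have hJ : p.1 (edg 0 d) ≠ 0 := hn _
    have hl' : 0 < |l| := abs_pos.2 hl
    have hρ : 0 < min (min δ |p.1 (edg 0 d)|) (2 * Real.pi / |l|) :=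
      lt_min (lt_min hδ (abs_pos.2 hJ)) (by positivity)
    set ρ := min (min δ |p.1 (edg 0 d)|) (2 * Real.pi / |l|) with hρdef
    have hball : 0 < μ (Metric.ball (p.1 (edg 0 d)) ρ) :=
      ((Measure.mem_support_iff_forall _).1 hs) _ (Metric.ball_mem_nhds _ hρ)
    have hx0 : ∀ᵐ x ∂μ, x ≠ p.1 (edg 0 d) := by
      rw [ae_iff]
      simpa using hμ (p.1 (edg 0 d))
    have hbad : ∀ᵐ x ∂μ, x ∉ Metric.ball (p.1 (edg 0 d)) ρ := by
      filter_upwards [hp, hx0] with x hx hx0 hlt
      rw [Metric.mem_ball, Real.dist_eq] at hlt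
      have l1 : |x - p.1 (edg 0 d)| < δ :=
        hlt.trans_le ((min_le_left _ _).trans (min_le_left _ _))
      have l2 : |x - p.1 (edg 0 d)| < |p.1 (edg 0 d)| :=
        hlt.trans_le ((min_le_left _ _).trans (min_le_right _ _))
      have l3 : |x - p.1 (edg 0 d)| < 2 * Real.pi / |l| := hlt.trans_le (min_le_right _ _)
      have hmem : ((p, x) : XX × ℝ) ∈ SdZ Z d :=
        ⟨hwl, hflex x l1⟩
      have h1 := hx hmem
      have h2 : Complex.exp (-(l * (xv (updX (edg 0 d) (p, x), d) - xv (p, d)) * Complex.I))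
          = 1 := by
        have h3 : (1 : ℂ) * h (p, d) =
            Complex.exp (-(l * (xv (updX (edg 0 d) (p, x), d) - xv (p, d)) * Complex.I)) *
              h (p, d) := by
          rw [one_mul]
          exact h1
        exact (mul_right_cancel₀ hne h3).symm
      have h4 : xv (updX (edg 0 d) (p, x), d) - xv (p, d) =
          (|x| - |p.1 (edg 0 d)|) * sg (p.2.1 (edg 0 d)) := by
        have h5 : xv (updX (edg 0 d) (p, x), d) = |x| * sg (p.2.1 (edg 0 d)) := by
          show |upd p.1 (edg 0 d) x (edg 0 d)| * sg (p.2.1 (edg 0 d)) = _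
          rw [upd_self]
        rw [h5]
        show |x| * sg (p.2.1 (edg 0 d)) - |p.1 (edg 0 d)| * sg (p.2.1 (edg 0 d)) = _
        ring
      have h6 : |(|x| - |p.1 (edg 0 d)|)| = |x - p.1 (edg 0 d)| := by
        rcases lt_or_gt_of_ne hJ with h7 | h7
        · rw [abs_of_neg h7, abs_lt] at l2
          rw [abs_of_neg h7, abs_of_neg (show x < 0 by linarith), ← abs_neg]
          congr 1
          ring
        · rw [abs_of_pos h7, abs_lt] at l2
          rw [abs_of_pos h7, abs_of_pos (show 0 < x by linarith)]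
      have h8 : |l * (xv (updX (edg 0 d) (p, x), d) - xv (p, d))| =
          |l| * |x - p.1 (edg 0 d)| := by
        rw [h4, abs_mul, abs_mul, abs_sg, mul_one, h6]
      have h9 : 0 < |x - p.1 (edg 0 d)| := abs_pos.2 (sub_ne_zero.2 hx0)
      refine exp_ne (t := l * (xv (updX (edg 0 d) (p, x), d) - xv (p, d))) ?_ ?_ ?_
      · rw [← abs_pos, h8]
        positivity
      · rw [h8]
        rw [lt_div_iff₀ hl'] at l3
        linarith
      · rw [← h2]
        push_cast
        rfl
    have h10 : μ (Metric.ball (p.1 (edg 0 d)) ρ) = 0 := by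
      have h11 := ae_iff.1 hbad
      simp only [not_not] at h11
      exact h11
    exact hball.ne' h10
  unfold nuM
  rw [ae_finsetSum_measure_iff]
  intro d _
  have m2 : Measurable (fun p : XX => ((p, d) : YY)) := measurable_id.prodMk measurable_const
  have hs0 : MeasurableSet {y : YY | h y = 0} := hm (measurableSet_singleton 0)
  rw [ae_map_iff m2.aemeasurable hs0]
  have hw : MeasurableSet {p : XX | wl p (edg 0 d) = true} :=
    measurableSet_eq_fun ((measurable_pi_apply (edg 0 d)).comp measurable_wl) measurable_const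
  rw [ae_restrict_iff' hw]
  exact key d

/-- **(CL)**: no tightness of the energies along the walls. -/
theorem IsR.cesaro [IsProbabilityMeasure μ] (hμ : ∀ x : ℝ, μ {x} = 0) (hQ : IsR μ Q) (K : ℝ) :
    Tendsto (fun N : ℕ => (N : ℝ)⁻¹ * ∑ n ∈ Finset.range N,
      (nuM Q {y | |Vn n y| ≤ K}).toReal) atTop (𝓝 0) := by
  have : IsFiniteMeasure (nuM Q) := ⟨hQ.nu_univ_lt⟩
  exact Pool.Agent.Helper60.TJ.cesaro hQ.mp_Th measurable_xv
    (fun l hl h hm hi heq => hQ.no_eig hμ hl hm hi heq) K

end Pool.Agent.Helper99.MS
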