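import Pool.Agent.Helper99.MS.PosA
import Pool.Agent.Helper5.MMRepB

set_option autoImplicit false

/-!
# The sum of the energy differences of two replicas is bounded below
-/

namespace Pool.Agent.Helper99.MS

open MeasureTheory Filter Topology Pool.Agent.Helper60.TJ Pool.Agent.Helper61.MM
open Pool.Agent.Helper5.MM
open scoped symmDiff ENNReal

variable {ω : Env} {s s' : Vl}

theorem sum_le_of_near (h : Ok ω s) (h' : Ok ω s') (g : Gm)
    (hc : ∀ v v', OnW (bx (uu s g) (uu s' g)) v → OnW (bx (uu s g) (uu s' g)) v' →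
      Cn (bx (uu s g) (uu s' g)) v v')
    {x x' v v' : Vx} {M : ℝ} (hv : OnW (bx (uu s g) (uu s' g)) v)
    (hv' : OnW (bx (uu s g) (uu s' g)) v') {X X' D : Finset Ed}
    (hX : par (ind X) = vx (dl x) (dl v)) (hX' : par (ind X') = vx (dl x') (dl v'))
    (hM : tw (ww g ω) X ≤ M) (hM' : tw (ww g ω) X' ≤ M)
    (hD : par (ind D) = vx (dl x) (dl x')) : hh s g D + hh s' g D ≤ 4 * M := by
  obtain ⟨Y, hY, hYp⟩ := hc v v' hv hv'
  have hcyc : IsCyc (D ∆ ((Y ∆ X) ∆ X')) := by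
    apply isCyc_symmDiff_of_eq
    rw [par_ind_symmDiff, par_ind_symmDiff, hD, hYp, hX, hX']
    funext u
    unfold vx
    cases dl x u <;> cases dl x' u <;> cases dl v u <;> cases dl v' u <;> rfl
  have key : ∀ {t : Vl}, Ok ω t → hh t g D ≤ hh t g Y + 2 * M := by
    intro t ht
    rw [ht.hh_congr g hcyc]
    have h1 := abs_le.1 (ht.abs_sub_le g Y X)
    have h2 := abs_le.1 (ht.abs_sub_le g (Y ∆ X) X')
    linarith [h1.2, h2.2]
  have h1 := key h
  have h2 := key h'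
  have h3 := h.le_en g Y
  have h4 := h'.le_en g Y
  rw [en_wall hY] at h4
  linarith

theorem tg_of_par {D : Finset Ed} {x x' : Vx} (hD : par (ind D) = vx (dl x) (dl x')) :
    tg g0 D = txy x x' := by
  unfold tg txy
  rw [bdy_eq hD]
  exact Prod.ext (bot_symmDiff _) rfl

theorem restrict_le_QQ {lam : Measure ℝ} {κ : ProbabilityTheory.Kernel WT Rs} {R : Measure Om}
    (hl : Wgt lam) (hR : IsR lam κ R) (g : Gm) (B : Set XX) :
    R {z | z ∈ Df 0 1 g ∧ pr 0 1 g z ∈ B} ≤ QQ R B := by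
  rw [← law_pr hl hR (show (0 : Fin 3) ≠ 1 by decide) g]
  refine le_trans ?_ (Measure.le_map_apply (meas_pr 0 1 g).aemeasurable B)
  rw [Measure.restrict_apply' (measurableSet_Df 0 1 g)]
  refine measure_mono fun z hz => ⟨hz.2, hz.1⟩

/-- **The defect is bounded.** -/
theorem defect {lam : Measure ℝ} {κ : ProbabilityTheory.Kernel WT Rs} {R : Measure Om}
    (hl : Wgt lam) (hR : IsR lam κ R) (hone : ∀ᵐ p ∂(QQ R), One p)
    (hnear : ∀ ε : ℝ, 0 < ε → ∃ (M : ℝ) (r : ℕ), ∀ x : Vx,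
      QQ R {p | ¬ Nr M r x p} ≤ ENNReal.ofReal ε)
    (hdf : ∀ x x' : Vx, ∀ᵐ z ∂(R), z ∈ Df 0 1 g0 → z ∈ Df 0 1 (txy x x')) {ε : ℝ} (hε : 0 < ε) :
    ∃ C : ℝ, 0 ≤ C ∧ ∀ (x x' : Vx) (D : Finset Ed), par (ind D) = vx (dl x) (dl x') →
      R {z | z ∈ Df 0 1 g0 ∧ hh (rp z 0) g0 D + hh (rp z 1) g0 D < -C} ≤ ENNReal.ofReal ε := by
  obtain ⟨M, r, hM⟩ := hnear (ε / 2) (by positivity)
  refine ⟨4 * |M|, by positivity, fun x x' D hD => ?_⟩
  set g : Gm := txy x x' with hg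
  set B : Set XX := {p | ¬ One p} ∪ ({p | ¬ Nr M r x p} ∪ {p | ¬ Nr M r x' p}) with hB
  have h1 : R {z | z ∈ Df 0 1 g0 ∧ hh (rp z 0) g0 D + hh (rp z 1) g0 D < -(4 * |M|)} ≤
      R {z | z ∈ Df 0 1 g ∧ pr 0 1 g z ∈ B} := by
    refine measure_mono_ae ?_
    filter_upwards [hR.ok, hdf x x'] with z hz hz' hmem
    obtain ⟨hm1, hm2⟩ := hmem
    refine ⟨hz' hm1, ?_⟩
    by_contra hcon
    rw [hB, Set.mem_union, Set.mem_union, not_or, not_or] at hcon
    obtain ⟨c1, c2, c3⟩ := hcon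
    have c1' : One (pr 0 1 g z) := not_not.1 c1
    have c2' : Nr M r x (pr 0 1 g z) := not_not.1 c2
    have c3' : Nr M r x' (pr 0 1 g z) := not_not.1 c3
    obtain ⟨v, _, hv, X, hX, hXM⟩ := c2'
    obtain ⟨v', _, hv', X', hX', hXM'⟩ := c3'
    have hw : wt (pr 0 1 g z).1 = ww g z.1 := wt_of_pos ((hz 0).ww_pos g)
    rw [hw] at hXM hXM'
    have key := sum_le_of_near (hz 0) (hz 1) g c1'.2.2 hv hv' hX hX' (hXM.trans (le_abs_self M))
      (hXM'.trans (le_abs_self M)) hD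
    rw [hg, ← tg_of_par hD, (hz 0).hh_self, (hz 1).hh_self] at key
    linarith
  have hone' : QQ R {p | ¬ One p} = 0 := ae_iff.1 hone
  refine (h1.trans (restrict_le_QQ hl hR g B)).trans ?_
  rw [hB]
  refine (measure_union_le _ _).trans ?_
  rw [hone', zero_add]
  refine (measure_union_le _ _).trans ((add_le_add (hM x) (hM x')).trans ?_)
  rw [← ENNReal.ofReal_add (by positivity) (by positivity)]
  exact le_of_eq (by congr 1; ring)

end Pool.Agent.Helper99.MS
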