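import Pool.Agent.Helper60.TJ.G1
import Pool.Agent.Helper60.TJ.G2

set_option autoImplicit false

/-!
# Laws of pairs of replicas: walls, the walk along the walls

`IsR μ Q`: `Q` is a finite measure on couplings with two different locally minimal T-joins, invariant
under translations, and under the change of one coupling on an event which contains a neighbourhood
of the old coupling.
-/

namespace Pool.Agent.Helper99.MS

open Pool.Agent.Helper60.TJ
open scoped symmDiff ENNReal
open MeasureTheory Filter Topology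

/-- law of a pair of replicas -/
structure IsR (μ : Measure ℝ) (Q : Measure XX) : Prop where
  fin : Q Set.univ ≤ 1
  gs : ∀ᵐ p ∂Q, p.2.1 ∈ GJ p.1 ∧ p.2.2 ∈ GJ p.1 ∧ p.2.1 ≠ p.2.2
  nz : ∀ᵐ p ∂Q, ∀ e, p.1 e ≠ 0
  nt : ∀ᵐ p ∂Q, NT (wt p.1)
  inv : ∀ u : Vx, MeasurePreserving (shX u) Q Q
  fst_le : ∀ R : Set (Ed → ℝ), Q (Prod.fst ⁻¹' R) ≤ PP μ R
  res : ∀ e : Ed, ∃ Z : Set (XX × ℝ), MeasurableSet Z ∧
    ((Q.prod μ).restrict Z).map (updX e) ≤ Q ∧
      ∀ᵐ p ∂Q, ∃ δ : ℝ, 0 < δ ∧ ∀ x : ℝ, |x - p.1 e| < δ → (p, x) ∈ Z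

variable {μ : Measure ℝ} {Q : Measure XX}

theorem IsR.isFinite (hQ : IsR μ Q) : IsFiniteMeasure Q := ⟨hQ.fin.trans_lt ENNReal.one_lt_top⟩

theorem IsR.acyclic (hQ : IsR μ Q) :
    ∀ᵐ p ∂Q, ∀ C : Finset Ed, IsCyc C → (∀ e ∈ C, wl p e = true) → C = ∅ := by
  filter_upwards [hQ.gs, hQ.nt] with p h1 h2 C hC h
  exact acyc h1.1 h1.2.1 h2 hC h

open Dx in
/-- counting: in a finite forest with all interior degrees even, at most as many interior vertices
of degree four as outer boundary vertices -/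
theorem IsR.deg_two (hQ : IsR μ Q) : ∀ᵐ p ∂Q, Deg2 (wl p) := by
  classical
  have hD : ∀ v, Q (D4 v) = Q (D4 0) := fun v => by
    rw [D4_eq v]
    exact (hQ.inv v).measure_preimage (measurableSet_D4 0).nullMeasurableSet
  have hbound : ∀ L : ℕ, ((2 * L + 1) ^ 2 : ℕ) * Q (D4 0) ≤ (8 * L + 8 : ℕ) * 1 := by
    intro L
    have h1 : ∑ v ∈ box L, Q (D4 v) = ((2 * L + 1) ^ 2 : ℕ) * Q (D4 0) := by
      rw [Finset.sum_congr rfl fun v _ => hD v, Finset.sum_const, card_box, nsmul_eq_mul]
    rw [← h1]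
    have h2 : ∑ v ∈ box L, Q (D4 v) = ∫⁻ p, ∑ v ∈ box L, (D4 v).indicator 1 p ∂Q := by
      rw [lintegral_finsetSum _ fun v _ => measurable_one.indicator (measurableSet_D4 v)]
      refine Finset.sum_congr rfl fun v _ => ?_
      rw [lintegral_indicator_one (measurableSet_D4 v)]
    rw [h2]
    calc ∫⁻ p, ∑ v ∈ box L, (D4 v).indicator 1 p ∂Q ≤ ∫⁻ _, ((8 * L + 8 : ℕ) : ENNReal) ∂Q := by
          refine lintegral_mono_ae ?_
          filter_upwards [hQ.gs, hQ.nt] with p hp hnt
          have h3 := card_v4_le hp.1 hp.2.1 hnt L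
          have h4 : ∑ v ∈ box L, (D4 v).indicator (1 : XX → ENNReal) p = ((v4 (wl p) L).card : ENNReal) := by
            unfold v4
            rw [Finset.card_filter, Nat.cast_sum]
            refine Finset.sum_congr rfl fun v _ => ?_
            by_cases hv : p ∈ D4 v
            · have hv' : ∀ d, wl p (edg v d) = true := hv
              rw [Set.indicator_of_mem hv, if_pos hv']; simp
            · have hv' : ¬ ∀ d, wl p (edg v d) = true := hv
              rw [Set.indicator_of_notMem hv, if_neg hv']; simp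
          rw [h4]
          exact_mod_cast h3
      _ ≤ (8 * L + 8 : ℕ) * 1 := by
          rw [lintegral_const]
          exact mul_le_mul' le_rfl hQ.fin
  have hzero : Q (D4 0) = 0 := by
    by_contra hne
    have hfin : Q (D4 0) ≠ ⊤ := by
      refine ne_top_of_le_ne_top ?_ (measure_mono (Set.subset_univ _))
      exact (hQ.fin.trans_lt ENNReal.one_lt_top).ne
    set q := (Q (D4 0)).toReal with hq
    have hqpos : 0 < q := ENNReal.toReal_pos hne hfin
    have hreal : ∀ L : ℕ, ((2 * L + 1) ^ 2 : ℝ) * q ≤ (8 * L + 8) * 1 := by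
      intro L
      have h := ENNReal.toReal_mono (ENNReal.mul_ne_top (ENNReal.natCast_ne_top _)
        ENNReal.one_ne_top) (hbound L)
      rw [ENNReal.toReal_mul, ENNReal.toReal_mul, ENNReal.toReal_natCast, ENNReal.toReal_natCast,
        ENNReal.toReal_one] at h
      push_cast at h ⊢
      exact h
    obtain ⟨L, hL⟩ := exists_nat_gt (8 / q)
    have h1 := hreal L
    have h2 : 8 < L * q := by
      rwa [div_lt_iff₀ hqpos] at hL
    have h3 : (0 : ℝ) ≤ L := Nat.cast_nonneg L
    nlinarith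
  have hall : ∀ᵐ p ∂Q, ∀ v, p ∉ D4 v := by
    rw [ae_all_iff]
    intro v
    rw [ae_iff]
    simp only [not_not]
    have : {a | a ∈ D4 v} = D4 v := rfl
    rw [this, hD v, hzero]
  filter_upwards [hQ.gs, hall] with p hp h4
  refine ⟨par_wall hp.1 hp.2.1, fun v => ?_⟩
  by_contra hcon
  apply h4 v
  intro d
  by_contra hd
  exact hcon ⟨d, by simpa using hd⟩

/-! ### the walk -/

private theorem f2_mw (d : Dir) : MeasurableSet {p : XX | wl p (edg 0 d) = true} :=
  measurableSet_eq_fun ((measurable_pi_apply (edg 0 d)).comp measurable_wl) measurable_const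

private theorem f2_nu (Q : Measure XX) {A : Set YY} (hA : MeasurableSet A) :
    nuM Q A = ∑ d : Dir, Q {p | wl p (edg 0 d) = true ∧ (p, d) ∈ A} := by
  unfold nuM
  rw [Measure.finsetSum_apply]
  refine Finset.sum_congr rfl fun d _ => ?_
  have hm : Measurable (fun p : XX => (p, d)) := measurable_id.prodMk measurable_const
  rw [Measure.map_apply hm hA, Measure.restrict_apply (hm hA)]
  congr 1
  ext p
  simp only [Set.mem_inter_iff, Set.mem_preimage, Set.mem_ofPred_eq]
  tauto

theorem IsR.nu_univ_lt (hQ : IsR μ Q) : nuM Q Set.univ < ⊤ := by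
  rw [f2_nu Q MeasurableSet.univ]
  refine ENNReal.sum_lt_top.2 fun d _ => lt_of_le_of_lt (measure_mono (Set.subset_univ _)) ?_
  exact hQ.fin.trans_lt ENNReal.one_lt_top

theorem IsR.nu_univ_pos (hQ : IsR μ Q) (hne : Q ≠ 0) : 0 < nuM Q Set.univ := by
  rw [pos_iff_ne_zero]
  intro h0
  rw [f2_nu Q MeasurableSet.univ, Finset.sum_eq_zero_iff] at h0
  have h1 : ∀ (v : Vx) (d : Dir), Q {p | wl p (edg v d) = true} = 0 := by
    intro v d
    have h2 := h0 d (Finset.mem_univ _)
    simp only [Set.mem_univ, and_true] at h2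
    rw [← (hQ.inv v).measure_preimage (f2_mw d).nullMeasurableSet] at h2
    rw [← h2]
    congr 1
    ext p
    rw [Set.mem_preimage, Set.mem_ofPred_eq, Set.mem_ofPred_eq, wl_shX, sh_edg, zero_add]
  have h3 : ∀ᵐ p ∂Q, ∀ v : Vx, ∀ d : Dir, ¬ wl p (edg v d) = true := by
    rw [ae_all_iff]
    intro v
    rw [ae_all_iff]
    intro d
    rw [ae_iff]
    simpa using h1 v d
  have h4 : ∀ᵐ p ∂Q, False := by
    filter_upwards [h3, hQ.gs] with p hp hn
    refine hn.2.2 ((bx_eq_false_iff _ _).1 fun e => ?_)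
    obtain ⟨v, d, rfl⟩ := exists_edg e
    exact Bool.eq_false_of_not_eq_true (hp v d)
  rw [ae_iff] at h4
  simp only [not_false_eq_true] at h4
  have h5 : Q Set.univ = 0 := by
    rw [← h4]; rfl
  exact hne (Measure.measure_univ_eq_zero.1 h5)

theorem IsR.nu_ae_GY (hQ : IsR μ Q) : ∀ᵐ y ∂(nuM Q), GY y := by
  have h1 : ∀ᵐ y ∂(nuM Q), wl y.1 (edg 0 y.2) = true := by
    have hm : MeasurableSet {y : YY | wl y.1 (edg 0 y.2) = true} := by
      refine measurableSet_eq_fun ?_ measurable_const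
      refine measurable_from_prod_countable_left fun d => ?_
      exact (measurable_pi_apply (edg 0 d)).comp measurable_wl
    rw [ae_iff]
    have h2 := f2_nu Q hm.compl
    rw [show {y : YY | ¬ wl y.1 (edg 0 y.2) = true} = {y : YY | wl y.1 (edg 0 y.2) = true}ᶜ from rfl,
      h2, Finset.sum_eq_zero_iff]
    intro d _
    have h3 : {p : XX | wl p (edg 0 d) = true ∧ (p, d) ∈ {y : YY | wl y.1 (edg 0 y.2) = true}ᶜ}
        = ∅ := by
      ext p
      simp only [Set.mem_ofPred_eq, Set.mem_compl_iff, Set.mem_empty_iff_false, iff_false, not_and,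
        not_not, imp_self]
    rw [h3, measure_empty]
  filter_upwards [h1, nu_ae_of hQ.deg_two, nu_ae_of hQ.acyclic] with y hy hd hn
  exact ⟨hd, hy, hn⟩

private theorem f2_swap (W : Ed → Bool) (h : par W 0 = false) (h' : ∃ d, W (edg 0 d) = false)
    (f : Dir → ENNReal) :
    ∑ d : Dir, (if W (edg 0 d) = true then f (oth W 0 d) else 0)
      = ∑ d : Dir, (if W (edg 0 d) = true then f d else 0) := by
  unfold par at h
  unfold oth nxt
  simp only [Fin.sum_univ_four]
  have a1 : (0 : Dir) + 2 = 2 := rfl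
  have a2 : (1 : Dir) + 2 = 3 := rfl
  have a3 : (2 : Dir) + 2 = 0 := rfl
  have a4 : (3 : Dir) + 2 = 1 := rfl
  have b1 : (0 : Dir) + 1 = 1 := rfl
  have b2 : (1 : Dir) + 1 = 2 := rfl
  have b3 : (2 : Dir) + 1 = 3 := rfl
  have b4 : (3 : Dir) + 1 = 0 := rfl
  have c1 : (0 : Dir) + 3 = 3 := rfl
  have c2 : (1 : Dir) + 3 = 0 := rfl
  have c3 : (2 : Dir) + 3 = 1 := rfl
  have c4 : (3 : Dir) + 3 = 2 := rfl
  rw [a1, a2, a3, a4, b1, b2, b3, b4, c1, c2, c3, c4]
  have h'' : W (edg 0 0) = false ∨ W (edg 0 1) = false ∨ W (edg 0 2) = false ∨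
      W (edg 0 3) = false := by
    obtain ⟨d, hd⟩ := h'
    fin_cases d
    · exact Or.inl hd
    · exact Or.inr (Or.inl hd)
    · exact Or.inr (Or.inr (Or.inl hd))
    · exact Or.inr (Or.inr (Or.inr hd))
  cases h0 : W (edg 0 0) <;> cases h1 : W (edg 0 1) <;> cases h2 : W (edg 0 2) <;>
    cases h3 : W (edg 0 3) <;> simp_all <;> ring

theorem IsR.mp_rv (hQ : IsR μ Q) : MeasurePreserving rv (nuM Q) (nuM Q) := by
  refine ⟨measurable_rv, ?_⟩
  ext A hA
  rw [Measure.map_apply measurable_rv hA, f2_nu Q (measurable_rv hA), f2_nu Q hA]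
  have key : ∀ B : Dir → Set XX, (∀ d, MeasurableSet (B d)) →
      ∑ d : Dir, Q (B d) = ∫⁻ p, ∑ d : Dir, (B d).indicator 1 p ∂Q := by
    intro B hB
    rw [lintegral_finsetSum _ fun d _ => measurable_one.indicator (hB d)]
    exact Finset.sum_congr rfl fun d _ => (lintegral_indicator_one (hB d)).symm
  have m1 : ∀ d : Dir, MeasurableSet {p : XX | wl p (edg 0 d) = true ∧ (p, d) ∈ A} := fun d =>
    (f2_mw d).inter ((measurable_id.prodMk measurable_const : Measurable fun p : XX => (p, d)) hA)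
  have m2 : ∀ d : Dir, MeasurableSet {p : XX | wl p (edg 0 d) = true ∧ (p, d) ∈ rv ⁻¹' A} := fun d =>
    (f2_mw d).inter ((measurable_id.prodMk measurable_const : Measurable fun p : XX => (p, d))
      (measurable_rv hA))
  rw [key _ m1, key _ m2]
  refine lintegral_congr_ae ?_
  filter_upwards [hQ.deg_two] with p hp
  have h1 := f2_swap (wl p) (hp.1 0) (hp.2 0) (fun d => A.indicator 1 (p, d))
  have h2 : ∀ d : Dir, ({p : XX | wl p (edg 0 d) = true ∧ (p, d) ∈ rv ⁻¹' A}.indicator 1 p : ENNReal)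
      = if wl p (edg 0 d) = true then A.indicator 1 (p, oth (wl p) 0 d) else 0 := by
    intro d
    by_cases hw : wl p (edg 0 d) = true
    · by_cases hA' : (p, oth (wl p) 0 d) ∈ A
      · rw [Set.indicator_of_mem (show p ∈ {p : XX | wl p (edg 0 d) = true ∧ (p, d) ∈ rv ⁻¹' A} from
          ⟨hw, hA'⟩), if_pos hw, Set.indicator_of_mem hA']
        rfl
      · rw [Set.indicator_of_notMem (fun h => hA' h.2), if_pos hw, Set.indicator_of_notMem hA']
    · rw [Set.indicator_of_notMem (fun h => hw h.1), if_neg hw]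
  have h3 : ∀ d : Dir, ({p : XX | wl p (edg 0 d) = true ∧ (p, d) ∈ A}.indicator 1 p : ENNReal)
      = if wl p (edg 0 d) = true then A.indicator 1 (p, d) else 0 := by
    intro d
    by_cases hw : wl p (edg 0 d) = true
    · by_cases hA' : (p, d) ∈ A
      · rw [Set.indicator_of_mem (show p ∈ {p : XX | wl p (edg 0 d) = true ∧ (p, d) ∈ A} from
          ⟨hw, hA'⟩), if_pos hw, Set.indicator_of_mem hA']
        rfl
      · rw [Set.indicator_of_notMem (fun h => hA' h.2), if_pos hw, Set.indicator_of_notMem hA']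
    · rw [Set.indicator_of_notMem (fun h => hw h.1), if_neg hw]
  simp only [h2, h3]
  exact h1

/-- the wall edge seen from its other end point -/
private def f2_flip (y : YY) : YY := (shX (stp y.2) y.1, opp y.2)

private theorem f2_mflip : Measurable f2_flip := by
  refine measurable_from_prod_countable_left fun d => ?_
  exact (measurable_shX (stp d)).prodMk measurable_const

private theorem f2_Th (y : YY) : Th y = rv (f2_flip y) := by
  unfold Th rv f2_flip oth opp
  have h : y.2 + 2 + 2 = y.2 := by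
    rw [add_assoc]
    exact add_zero y.2
  simp only
  rw [h]

private theorem f2_mpflip (hQ : IsR μ Q) : MeasurePreserving f2_flip (nuM Q) (nuM Q) := by
  refine ⟨f2_mflip, ?_⟩
  ext A hA
  rw [Measure.map_apply f2_mflip hA, f2_nu Q (f2_mflip hA), f2_nu Q hA]
  have m1 : ∀ d : Dir, MeasurableSet {p : XX | wl p (edg 0 d) = true ∧ (p, d) ∈ A} := fun d =>
    (f2_mw d).inter ((measurable_id.prodMk measurable_const : Measurable fun p : XX => (p, d)) hA)
  have h1 : ∀ d : Dir, Q {p : XX | wl p (edg 0 d) = true ∧ (p, d) ∈ f2_flip ⁻¹' A}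
      = Q {p : XX | wl p (edg 0 (opp d)) = true ∧ (p, opp d) ∈ A} := by
    intro d
    rw [← (hQ.inv (stp d)).measure_preimage (m1 (opp d)).nullMeasurableSet]
    congr 1
    ext p
    rw [Set.mem_preimage, Set.mem_ofPred_eq, Set.mem_ofPred_eq, wl_shX, sh_edg, edg_opp]
    rfl
  simp only [h1]
  exact Fintype.sum_equiv ⟨opp, opp, opp_opp, opp_opp⟩ _ _ fun d => rfl

theorem IsR.mp_Th (hQ : IsR μ Q) : MeasurePreserving Th (nuM Q) (nuM Q) := by
  have h : Th = rv ∘ f2_flip := funext f2_Th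
  rw [h]
  exact hQ.mp_rv.comp (f2_mpflip hQ)

end Pool.Agent.Helper99.MS
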