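import Pool.Agent.Helper99.MS.OkL
import Pool.Agent.Helper60.TJ.E2
import Pool.Agent.Helper99.TJ.S6H

set_option autoImplicit false

/-!
# Exact toggles, deterministic part
-/

namespace Pool.Agent.Helper99.MS

open Pool.Agent.Helper60.TJ Pool.Agent.Helper61.MM
open Pool.Agent.Helper99.TJ (Ac)
open scoped symmDiff

/-! ### balls of edges -/

/-- edges near `x` -/
noncomputable def BE (n : ℕ) (x : Vx) : Finset Ed :=
  (box n ×ˢ (Finset.univ : Finset Bool)).image fun e => (e.1 + x, e.2)

theorem mem_BE {n : ℕ} {x : Vx} {e : Ed} : e ∈ BE n x ↔ e.1 - x ∈ box n := by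
  unfold BE
  rw [Finset.mem_image]
  constructor
  · rintro ⟨e', he', rfl⟩
    simpa using (Finset.mem_product.1 he').1
  · intro h
    refine ⟨(e.1 - x, e.2), Finset.mem_product.2 ⟨h, Finset.mem_univ _⟩, ?_⟩
    simp

theorem mem_box_iff {v : Vx} {L : ℕ} : v ∈ box L ↔ |v.1| ≤ L ∧ |v.2| ≤ L := by
  unfold box
  simp only [Finset.mem_product, Finset.mem_Icc, abs_le]

theorem card_BE_le (n : ℕ) (x : Vx) : (BE n x).card ≤ (box n).card * 2 := by
  unfold BE
  refine Finset.card_image_le.trans ?_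
  rw [Finset.card_product]
  simp

theorem edg_fst (u : Vx) (d : Dir) : |(edg u d).1.1 - u.1| ≤ 1 ∧ |(edg u d).1.2 - u.2| ≤ 1 := by
  fin_cases d <;> simp [edg]

theorem BE_step {n : ℕ} {x u : Vx} {d : Dir} (h : edg u d ∈ BE n x) (d' : Dir) :
    edg u d' ∈ BE (n + 2) x := by
  rw [mem_BE, mem_box_iff] at h ⊢
  obtain ⟨h1, h2⟩ := edg_fst u d
  obtain ⟨h3, h4⟩ := edg_fst u d'
  obtain ⟨h5, h6⟩ := h
  rw [Prod.fst_sub] at *
  rw [Prod.snd_sub] at *
  push_cast
  rw [abs_le] at *
  rw [abs_le]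
  constructor <;> constructor <;> linarith [h1.1, h1.2, h2.1, h2.2, h3.1, h3.2, h4.1, h4.2,
    h5.1, h5.2, h6.1, h6.2]

theorem edg_mem_BE (n : ℕ) (y : Vx) (d : Dir) : edg y d ∈ BE (n + 2) y := by
  rw [mem_BE, mem_box_iff]
  obtain ⟨h1, h2⟩ := edg_fst y d
  rw [Prod.fst_sub, Prod.snd_sub]
  push_cast
  constructor
  · linarith
  · linarith

/-! ### local constancy -/

theorem bool_local (a0 a1 a2 a3 b0 b1 b2 b3 : Bool)
    (h0 : a0 = false → b0 = false) (h1 : a1 = false → b1 = false)
    (h2 : a2 = false → b2 = false) (h3 : a3 = false → b3 = false)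
    (ha : xor (xor a0 a1) (xor a2 a3) = false) (hb : xor (xor b0 b1) (xor b2 b3) = false)
    (hn : a0 = false ∨ a1 = false ∨ a2 = false ∨ a3 = false) :
    (b0 = false ∧ b1 = false ∧ b2 = false ∧ b3 = false) ∨
      (b0 = a0 ∧ b1 = a1 ∧ b2 = a2 ∧ b3 = a3) := by
  revert h0 h1 h2 h3 ha hb hn
  revert a0 a1 a2 a3 b0 b1 b2 b3
  decide

theorem local_const {W Z : Ed → Bool} (hdeg : Deg2 W) (hZ : ∀ u, par Z u = false) {u : Vx}
    (hZW : ∀ d, W (edg u d) = false → Z (edg u d) = false) :
    (∀ d, Z (edg u d) = false) ∨ ∀ d, Z (edg u d) = W (edg u d) := by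
  have h := bool_local (W (edg u 0)) (W (edg u 1)) (W (edg u 2)) (W (edg u 3))
    (Z (edg u 0)) (Z (edg u 1)) (Z (edg u 2)) (Z (edg u 3)) (hZW 0) (hZW 1) (hZW 2) (hZW 3)
    (hdeg.1 u) (hZ u) (by
      obtain ⟨d, hd⟩ := hdeg.2 u
      fin_cases d
      · exact Or.inl hd
      · exact Or.inr (Or.inl hd)
      · exact Or.inr (Or.inr (Or.inl hd))
      · exact Or.inr (Or.inr (Or.inr hd)))
  rcases h with ⟨h0, h1, h2, h3⟩ | ⟨h0, h1, h2, h3⟩
  · left
    intro d
    fin_cases d
    · exact h0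
    · exact h1
    · exact h2
    · exact h3
  · right
    intro d
    fin_cases d
    · exact h0
    · exact h1
    · exact h2
    · exact h3

theorem par_eq_of_edges {X Y : Ed → Bool} {u : Vx} (h : ∀ d, X (edg u d) = Y (edg u d)) :
    par X u = par Y u := by
  unfold par
  rw [h 0, h 1, h 2, h 3]

/-- an even edge set which is contained in the wall near `y` and contains a wall edge at `y`
contains the wall segments which start at `y` and stay near `y` -/
theorem propagate {W Z : Ed → Bool} (hdeg : Deg2 W) (hac : Ac W) {n : ℕ} {y v : Vx}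
    {P : Finset Ed} (hP : ∀ e ∈ P, W e = true ∧ e ∈ BE n y)
    (hpar : par (ind P) = vx (dl y) (dl v)) (hZ : ∀ u, par Z u = false)
    (hZW : ∀ e ∈ BE (n + 2) y, W e = false → Z e = false) {d : Dir} (hd : Z (edg y d) = true) :
    ∀ e ∈ P, Z e = true := by
  classical
  set F : Finset Ed := P.filter fun e => Z e = false with hF
  have hFP : ∀ u d', ind F (edg u d') = true → ind P (edg u d') = true := by
    intro u d' h
    rw [ind_eq_true] at h ⊢
    exact (Finset.mem_filter.1 h).1
  have key : ∀ u, par (ind F) u = false ∨ par (ind F) u = par (ind P) u := by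
    intro u
    by_cases hu : ∃ d', edg u d' ∈ P
    · obtain ⟨d', hd'⟩ := hu
      have h1 : ∀ d'', W (edg u d'') = false → Z (edg u d'') = false := fun d'' =>
        hZW _ (BE_step (hP _ hd').2 d'')
      rcases local_const hdeg hZ h1 with h2 | h2
      · right
        refine par_eq_of_edges fun d'' => ?_
        unfold ind
        congr 1
        rw [hF, Finset.mem_filter]
        simp [h2 d'']
      · left
        have h3 : par (ind F) u = par (fun _ => false) u := par_eq_of_edges fun d'' => by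
          by_contra hcon
          rw [Bool.not_eq_false, ind_eq_true, hF, Finset.mem_filter] at hcon
          rw [h2 d'', (hP _ hcon.1).1] at hcon
          exact absurd hcon.2 (by decide)
        rw [h3]; rfl
    · left
      have h3 : par (ind F) u = par (fun _ => false) u := par_eq_of_edges fun d'' => by
        by_contra hcon
        rw [Bool.not_eq_false] at hcon
        exact hu ⟨d'', ind_eq_true.1 (hFP u d'' hcon)⟩
      rw [h3]; rfl
  have hy : par (ind F) y = false := by
    have h1 : ∀ d'', W (edg y d'') = false → Z (edg y d'') = false := fun d'' =>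
      hZW _ (edg_mem_BE n y d'')
    rcases local_const hdeg hZ h1 with h2 | h2
    · rw [h2 d] at hd
      exact absurd hd (by decide)
    · have h3 : par (ind F) y = par (fun _ => false) y := par_eq_of_edges fun d'' => by
        by_contra hcon
        rw [Bool.not_eq_false, ind_eq_true, hF, Finset.mem_filter] at hcon
        rw [h2 d'', (hP _ hcon.1).1] at hcon
        exact absurd hcon.2 (by decide)
      rw [h3]; rfl
  have hcyc : IsCyc F := by
    have h1 : ∀ u, u ≠ v → par (ind F) u = false := by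
      intro u hu
      by_cases huy : u = y
      · rw [huy]; exact hy
      · rcases key u with h | h
        · exact h
        · rw [h, hpar]
          simp [vx, dl, hu, huy]
    intro u
    by_contra hcon
    rw [Bool.not_eq_false] at hcon
    have huv : u = v := by
      by_contra h
      rw [h1 u h] at hcon
      exact absurd hcon (by decide)
    apply Pool.Agent.Helper60.TJ.E2.handshake F v
    funext u'
    by_cases h : u' = v
    · rw [h, ← huv, hcon]
      simp [dl]
    · rw [h1 u' h]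
      simp [dl, h]
  have hempty : F = ∅ := hac F hcyc fun e he => (hP e (Finset.mem_filter.1 he).1).1
  intro e he
  by_contra hcon
  rw [Bool.not_eq_true] at hcon
  have : e ∈ F := Finset.mem_filter.2 ⟨he, hcon⟩
  rw [hempty] at this
  exact absurd this (Finset.notMem_empty e)

/-! ### boundaries -/

theorem indV_bdy (D : Finset Ed) : indV (bdy D) = par (ind D) := by
  funext v
  unfold indV bdy
  cases h : par (ind D) v
  · simp [h]
  · have h1 : ∃ d, ind D (edg v d) = true := by
      by_contra hcon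
      push Not at hcon
      have h2 : par (ind D) v = par (fun _ => false) v := par_eq_of_edges fun d => by
        simpa using hcon d
      rw [h2] at h
      exact Bool.false_ne_true h
    obtain ⟨d, hd⟩ := h1
    rw [ind_eq_true] at hd
    have h3 : da (edg v d) = v ∨ db (edg v d) = v := by
      fin_cases d <;> simp [edg, da, db]
    have h4 : v ∈ D.image da ∪ D.image db := by
      rw [Finset.mem_union, Finset.mem_image, Finset.mem_image]
      rcases h3 with h3 | h3
      · exact Or.inl ⟨_, hd, h3⟩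
      · exact Or.inr ⟨_, hd, h3⟩
    simp only [Finset.mem_filter, h4, h, true_and, decide_true]

theorem bdy_eq {D : Finset Ed} {y y' : Vx} (h : par (ind D) = vx (dl y) (dl y')) :
    bdy D = ({y} : Finset Vx) ∆ {y'} := by
  ext v
  have h1 := congrFun (indV_bdy D) v
  rw [h] at h1
  unfold indV vx dl at h1
  rw [Finset.mem_symmDiff, Finset.mem_singleton, Finset.mem_singleton]
  by_cases h2 : v = y <;> by_cases h3 : v = y' <;> simp_all

theorem indV_symmDiff (S S' : Finset Vx) : indV (S ∆ S') = vx (indV S) (indV S') := by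
  funext v
  unfold indV vx
  by_cases h : v ∈ S <;> by_cases h' : v ∈ S' <;> simp [Finset.mem_symmDiff, h, h']

/-! ### exit in the right direction -/

/-- near `y` there is a wall point with a higher energy difference to the other end of `P` -/
def Exi (ω : Env) (s s' : Vl) (n : ℕ) (C : ℝ) (y : Vx) (P : Finset Ed) : Prop :=
  ∃ (Pk : Finset Ed) (v : Vx), (∀ e ∈ Pk, bx (uu s g0) (uu s' g0) e = true ∧ e ∈ BE n y) ∧
    par (ind Pk) = vx (dl y) (dl v) ∧ -C ≤ hh s g0 (P ∆ Pk) + hh s' g0 (P ∆ Pk) ∧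
      en (ww g0 ω) (uu s g0) P + C < en (ww g0 ω) (uu s g0) (P ∆ Pk)

variable {ω : Env} {s s' : Vl}

theorem par_uu_tg (h : Ok ω s) (g : Gm) (D : Finset Ed) (v : Vx) :
    par (bx (uu s (tg g D)) (uu s g)) v = par (ind D) v := by
  rw [par_bx, (h.mem (tg g D)).1 v, (h.mem g).1 v]
  unfold tt tg
  rw [indV_symmDiff, indV_bdy]
  unfold vx
  cases ω.2 v <;> cases indV g.1 v <;> cases par (ind D) v <;> rfl

theorem exit_right (h : Ok ω s) (h' : Ok ω s') (hdeg : Deg2 (bx (uu s g0) (uu s' g0)))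
    (hac : Ac (bx (uu s g0) (uu s' g0))) {y : Vx} {P : Finset Ed}
    (hP : ∀ e ∈ P, bx (uu s g0) (uu s' g0) e = true) {n : ℕ} {C K : ℝ} (hC : 0 ≤ C) (hCK : C < K)
    (hdef : -C ≤ hh s g0 P + hh s' g0 P) (hex : Exi ω s s' n C y P) {A A₁ : Finset Ed}
    (hA₁ : A₁ ⊆ A) (hA : ∀ e ∈ A, uu s g0 e = decide (e ∈ A₁))
    (hA' : ∀ e ∈ A, uu s' g0 e = decide (e ∈ A₁))
    (hcov : ∀ e ∈ BE (n + 2) y, bx (uu s g0) (uu s' g0) e = false → e ∈ A)
    (hsp : ∀ e ∈ A, ww g0 ω e + K < ww (sg2 g0 A) ω e) (d : Dir) :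
    uu s (tg (tg (sg2 g0 A) A₁) P) (edg y d) =
      xor (uu s (tg (sg2 g0 A) A₁) (edg y d)) (ind P (edg y d)) := by
  obtain ⟨r1, r2⟩ := h.raise g0 A A₁ K hA₁ hA (hC.trans hCK.le) hsp
  set g' : Gm := tg (sg2 g0 A) A₁ with hg'
  set W : Ed → Bool := bx (uu s g0) (uu s' g0) with hW
  obtain ⟨Pk, v, hPk, hpk, hdk, hek⟩ := hex
  have hAW : ∀ e ∈ A, W e = false := by
    intro e he
    rw [hW]
    unfold bx
    rw [hA e he, hA' e he, Bool.xor_self]
  have hWA : ∀ e, W e = true → e ∉ A := by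
    intro e he heA
    rw [hAW e heA] at he
    exact absurd he (by decide)
  have hg2 : g'.2 = A := by
    rw [hg']
    show g0.2 ∆ A = A
    exact bot_symmDiff A
  have hww : ∀ e, e ∉ A → ww g' ω e = ww g0 ω e := by
    intro e he
    unfold ww
    rw [hg2]
    simp [he]
  have huu : ∀ e, e ∉ A → uu s g' e = uu s g0 e := by
    intro e he
    rw [r1]
    unfold bx ind
    have : e ∉ A₁ := fun h => he (hA₁ h)
    simp [this]
  -- energies on the wall are unchanged
  have hen : ∀ X : Finset Ed, (∀ e ∈ X, W e = true) →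
      en (ww g' ω) (uu s g') X = en (ww g0 ω) (uu s g0) X := by
    intro X hX
    unfold en
    refine Finset.sum_congr rfl fun e he => ?_
    rw [hww e (hWA e (hX e he)), huu e (hWA e (hX e he))]
  have hE : hh s g' P ≤ en (ww g0 ω) (uu s g0) P := by
    rw [← hen P hP]
    exact h.le_en g' P
  have hlow : ∀ X : Finset Ed, (∀ e ∈ X, W e = true) → -C ≤ hh s g0 X + hh s' g0 X →
      en (ww g0 ω) (uu s g0) X - C ≤ hh s g0 X := by
    intro X hX hX'
    have h1 := h'.le_en g0 X
    rw [en_wall (fun e he => hX e he)] at h1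
    linarith
  have hraise : hh s g' P < hh s g0 P + K := by
    have := hlow P hP hdef
    linarith
  have hXA := (r2 P).2 hraise
  set X : Ed → Bool := bx (uu s (tg g' P)) (uu s g') with hX
  set Z : Ed → Bool := bx X (ind P) with hZd
  have hZ : ∀ u, par Z u = false := by
    intro u
    rw [hZd, par_bx, hX, par_uu_tg h g' P u, Bool.xor_self]
  have hZW : ∀ e ∈ BE (n + 2) y, W e = false → Z e = false := by
    intro e he heW
    have heA := hcov e he heW
    have h1 : X e = false := by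
      rw [hX]
      unfold bx
      rw [hXA e heA, Bool.xor_self]
    have h2 : ind P e = false := by
      by_contra hcon
      rw [Bool.not_eq_false, ind_eq_true] at hcon
      rw [hP e hcon] at heW
      exact absurd heW (by decide)
    rw [hZd]
    unfold bx
    rw [h1, h2]; rfl
  have hZ0 : Z (edg y d) = false := by
    by_contra hcon
    rw [Bool.not_eq_false] at hcon
    have hall := propagate hdeg hac hPk hpk hZ hZW hcon
    have hPk' : ∀ e ∈ Pk, W e = true := fun e he => (hPk e he).1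
    have hPP : ∀ e ∈ P ∆ Pk, W e = true := by
      intro e he
      rcases Finset.mem_symmDiff.1 he with ⟨h1, _⟩ | ⟨h1, _⟩
      · exact hP e h1
      · exact hPk' e h1
    have h1 : hh s (tg g' P) Pk ≤ -en (ww g0 ω) (bx (uu s g0) (ind P)) Pk := by
      refine (h.le_en (tg g' P) Pk).trans (le_of_eq ?_)
      rw [← en_neg]
      unfold en
      refine Finset.sum_congr rfl fun e he => ?_
      rw [ww_tg, hww e (hWA e (hPk' e he))]
      congr 2
      have h2 : Z e = true := hall e he
      have h3 := huu e (hWA e (hPk' e he))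
      rw [hZd, hX] at h2
      unfold bx at h2 ⊢
      rw [h3] at h2
      show uu s (tg g' P) e = !(xor (uu s g0 e) (ind P e))
      revert h2
      cases uu s (tg g' P) e <;> cases uu s g0 e <;> cases ind P e <;> decide
    have h2 : hh s g' (P ∆ Pk) = hh s g' P + hh s (tg g' P) Pk := h.coc g' P Pk
    have h3 := (r2 (P ∆ Pk)).1
    have h4 := hlow (P ∆ Pk) hPP hdk
    have h5 := en_symmDiff (ww g0 ω) (uu s g0) P Pk
    linarith
  have h6 : xor (xor (uu s (tg g' P) (edg y d)) (uu s g' (edg y d))) (ind P (edg y d)) = false :=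
    hZ0
  revert h6
  cases uu s (tg g' P) (edg y d) <;> cases uu s g' (edg y d) <;> cases ind P (edg y d) <;> decide

/-- **Exact toggles.** -/
theorem exact_toggle (h : Ok ω s) (h' : Ok ω s') (hdeg : Deg2 (bx (uu s g0) (uu s' g0)))
    (hac : Ac (bx (uu s g0) (uu s' g0))) {y y' : Vx} (hy : OnW (bx (uu s g0) (uu s' g0)) y)
    (hy' : OnW (bx (uu s g0) (uu s' g0)) y') {P : Finset Ed}
    (hP : ∀ e ∈ P, bx (uu s g0) (uu s' g0) e = true) {n : ℕ} {C K : ℝ} (hC : 0 ≤ C) (hCK : C < K)
    (hdef : -C ≤ hh s g0 P + hh s' g0 P)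
    (e1 : Exi ω s s' n C y P) (e2 : Exi ω s' s n C y P)
    (e3 : Exi ω s s' n C y' P) (e4 : Exi ω s' s n C y' P)
    (hsp : ∀ e ∈ BE (n + 2) y ∪ BE (n + 2) y', (ω.1 e).1 + K < (ω.1 e).2) :
    ∃ A₁ A : Finset Ed, A₁ ⊆ A ∧ A ⊆ BE (n + 2) y ∪ BE (n + 2) y' ∧
      OnW (bx (uu s (bdy A₁, A)) (uu s' (bdy A₁, A))) y ∧
      OnW (bx (uu s (bdy A₁, A)) (uu s' (bdy A₁, A))) y' ∧
      OnW (bx (uu s (tg (bdy A₁, A) P)) (uu s' (tg (bdy A₁, A) P))) y ∧
      OnW (bx (uu s (tg (bdy A₁, A) P)) (uu s' (tg (bdy A₁, A) P))) y' := by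
  classical
  set W : Ed → Bool := bx (uu s g0) (uu s' g0) with hW
  set A : Finset Ed := (BE (n + 2) y ∪ BE (n + 2) y').filter fun e => W e = false with hA
  set A₁ : Finset Ed := A.filter fun e => uu s g0 e = true with hA₁
  have hsub : A₁ ⊆ A := Finset.filter_subset _ _
  have hWs : bx (uu s' g0) (uu s g0) = W := bx_comm _ _
  have hA2 : ∀ e ∈ A, uu s g0 e = decide (e ∈ A₁) := by
    intro e he
    rw [hA₁]
    simp only [Finset.mem_filter, he, true_and, Bool.decide_eq_true]
  have hA3 : ∀ e ∈ A, uu s' g0 e = decide (e ∈ A₁) := by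
    intro e he
    rw [← hA2 e he]
    have h1 : W e = false := (Finset.mem_filter.1 he).2
    rw [hW] at h1
    unfold bx at h1
    revert h1
    cases uu s g0 e <;> cases uu s' g0 e <;> decide
  have hg' : tg (sg2 g0 A) A₁ = (bdy A₁, A) := by
    unfold tg sg2
    exact Prod.ext (bot_symmDiff _) (bot_symmDiff _)
  have hsp' : ∀ e ∈ A, ww g0 ω e + K < ww (sg2 g0 A) ω e := by
    intro e he
    have h1 : (sg2 g0 A).2 = A := bot_symmDiff _
    unfold ww
    rw [h1]
    simp only [Finset.notMem_empty, if_false, he, if_true]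
    exact hsp e (Finset.mem_filter.1 he).1
  have hcy : ∀ e ∈ BE (n + 2) y, W e = false → e ∈ A := fun e he heW =>
    Finset.mem_filter.2 ⟨Finset.mem_union_left _ he, heW⟩
  have hcy' : ∀ e ∈ BE (n + 2) y', W e = false → e ∈ A := fun e he heW =>
    Finset.mem_filter.2 ⟨Finset.mem_union_right _ he, heW⟩
  have hdef' : -C ≤ hh s' g0 P + hh s g0 P := by linarith
  have hdeg' : Deg2 (bx (uu s' g0) (uu s g0)) := by rw [hWs]; exact hdeg
  have hac' : Ac (bx (uu s' g0) (uu s g0)) := by rw [hWs]; exact hac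
  have hP' : ∀ e ∈ P, bx (uu s' g0) (uu s g0) e = true := by rw [hWs]; exact hP
  have r : uu s (tg (sg2 g0 A) A₁) = bx (uu s g0) (ind A₁) :=
    (h.raise g0 A A₁ K hsub hA2 (hC.trans hCK.le) hsp').1
  have r' : uu s' (tg (sg2 g0 A) A₁) = bx (uu s' g0) (ind A₁) :=
    (h'.raise g0 A A₁ K hsub hA3 (hC.trans hCK.le) hsp').1
  have hW' : bx (uu s (tg (sg2 g0 A) A₁)) (uu s' (tg (sg2 g0 A) A₁)) = W := by
    rw [r, r', hW]
    funext e
    unfold bx
    cases uu s g0 e <;> cases uu s' g0 e <;> cases ind A₁ e <;> rfl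
  have x1 := exit_right h h' hdeg hac hP hC hCK hdef e1 hsub hA2 hA3 hcy hsp'
  have x2 := exit_right h' h hdeg' hac' hP' hC hCK hdef' e2 hsub hA3 hA2
    (by rw [hWs]; exact hcy) hsp'
  have x3 := exit_right h h' hdeg hac hP hC hCK hdef e3 hsub hA2 hA3 hcy' hsp'
  have x4 := exit_right h' h hdeg' hac' hP' hC hCK hdef' e4 hsub hA3 hA2
    (by rw [hWs]; exact hcy') hsp'
  refine ⟨A₁, A, hsub, Finset.filter_subset _ _, ?_, ?_, ?_, ?_⟩
  · rw [← hg', hW']; exact hy
  · rw [← hg', hW']; exact hy'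
  · rw [← hg']
    obtain ⟨d, hd⟩ := hy
    refine ⟨d, ?_⟩
    rw [← hW'] at hd
    unfold bx at hd ⊢
    rw [x1 d, x2 d, ← hd]
    cases uu s (tg (sg2 g0 A) A₁) (edg y d) <;> cases uu s' (tg (sg2 g0 A) A₁) (edg y d) <;>
      cases ind P (edg y d) <;> rfl
  · rw [← hg']
    obtain ⟨d, hd⟩ := hy'
    refine ⟨d, ?_⟩
    rw [← hW'] at hd
    unfold bx at hd ⊢
    rw [x3 d, x4 d, ← hd]
    cases uu s (tg (sg2 g0 A) A₁) (edg y' d) <;> cases uu s' (tg (sg2 g0 A) A₁) (edg y' d) <;>
      cases ind P (edg y' d) <;> rfl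

end Pool.Agent.Helper99.MS
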