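import Pool.Agent.Helper99.TJ.S6F

set_option autoImplicit false

/-!
# The upper bound for the wall energies, abstract form: boundary energies with toggles

`EnS μ P J U h`: on the probability space `(Ω, P)` there are couplings `J` with the product law, an
edge set `U` and energies `h ω D` of the finite edge sets `D` which satisfy the cocycle rule under
measure preserving sign flips and are at most the cost of flipping `D` in `U`.
-/

namespace Pool.Agent.Helper99.MS

open Pool.Agent.Helper60.TJ Pool.Agent.Helper99.TJ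
open scoped symmDiff ENNReal
open MeasureTheory

/-- boundary energies with measure preserving sign flips -/
structure EnS (μ : Measure ℝ) {Ω : Type*} [MeasurableSpace Ω] (P : Measure Ω) (J : Ω → Ed → ℝ)
    (U : Ω → Ed → Bool) (h : Ω → Finset Ed → ℝ) : Prop where
  mJ : Measurable J
  mh : ∀ D, Measurable fun ω => h ω D
  law : P.map J = PP μ
  nz : ∀ᵐ ω ∂P, ∀ e, J ω e ≠ 0
  tog : ∀ D : Finset Ed, ∃ τ : Ω → Ω, MeasurePreserving τ P P ∧
    (∀ᵐ ω ∂P, ∀ e, |J (τ ω) e| = |J ω e|) ∧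
      ∀ᵐ ω ∂P, ∀ D', h (τ ω) D' = h ω (D ∆ D') - h ω D
  step : ∀ᵐ ω ∂P, ∀ D e, |h ω (D ∆ {e}) - h ω D| ≤ |J ω e|
  bdry : ∀ᵐ ω ∂P, ∀ D D', IsCyc (D ∆ D') → h ω D = h ω D'
  le : ∀ᵐ ω ∂P, ∀ X, h ω X ≤ en (wt (J ω)) (U ω) X

variable {μ : Measure ℝ} {Ω : Type*} [MeasurableSpace Ω] {P : Measure Ω} {J : Ω → Ed → ℝ}
  {U : Ω → Ed → Bool} {h : Ω → Finset Ed → ℝ}

/-- the functional of McDiarmid's inequality -/
def fE (g : Finset Ed → ℝ) (π D : Finset Ed) : ℝ := g (π \ D) - g D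

theorem sdiff_step {π D : Finset Ed} {e : Ed} (he : e ∈ π) : π \ (D ∆ {e}) = (π \ D) ∆ {e} := by
  ext a
  simp only [Finset.mem_sdiff, Finset.mem_symmDiff, Finset.mem_singleton]
  constructor
  · rintro ⟨ha, hb⟩
    by_cases hae : a = e
    · subst hae
      refine Or.inr ⟨rfl, ?_⟩
      rintro ⟨_, hd⟩
      exact hb (Or.inr ⟨rfl, hd⟩)
    · refine Or.inl ⟨⟨ha, fun hd => hb (Or.inl ⟨hd, hae⟩)⟩, hae⟩
  · rintro (⟨⟨ha, hb⟩, hae⟩ | ⟨rfl, hb⟩)
    · refine ⟨ha, ?_⟩
      rintro (⟨hd, _⟩ | ⟨hd, _⟩)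
      · exact hb hd
      · exact hae hd
    · refine ⟨he, ?_⟩
      rintro (⟨_, hd⟩ | ⟨_, hd⟩)
      · exact hd rfl
      · exact hb ⟨he, hd⟩

/-- McDiarmid -/
theorem mcd_fE {g : Finset Ed → ℝ} {w : Ed → ℝ} (hg : ∀ D e, |g (D ∆ {e}) - g D| ≤ w e)
    (π : Finset Ed) (t : ℝ) (ht : 0 ≤ t) :
    ((π.powerset.filter fun D => t ≤ |fE g π D|).card : ℝ) ≤
      2 * 2 ^ π.card * Real.exp (-(t ^ 2 / (2 * ∑ e ∈ π, w e ^ 2))) := by
  classical
  have hstep : ∀ D ⊆ π, ∀ e ∈ π, |fE g π (D ∆ {e}) - fE g π D| ≤ 2 * w e := by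
    intro D _ e he
    unfold fE
    rw [sdiff_step he]
    have h2 := hg (π \ D) e
    have h3 := hg D e
    calc |g ((π \ D) ∆ {e}) - g (D ∆ {e}) - (g (π \ D) - g D)|
        = |(g ((π \ D) ∆ {e}) - g (π \ D)) - (g (D ∆ {e}) - g D)| := by
          congr 1; ring
      _ ≤ |g ((π \ D) ∆ {e}) - g (π \ D)| + |g (D ∆ {e}) - g D| := abs_sub _ _
      _ ≤ 2 * w e := by linarith
  have hodd : ∀ D ⊆ π, fE g π (π \ D) = -fE g π D := by
    intro D hD
    unfold fE
    rw [sdiff_sdiff_right_self, Finset.inf_eq_inter, Finset.inter_eq_right.2 hD]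
    ring
  have key := mcdiarmid_subsets π (fE g π) (fun e => 2 * w e) hstep hodd t ht
  refine key.trans (le_of_eq ?_)
  congr 3
  have : ∑ e ∈ π, (2 * w e) ^ 2 = 4 * ∑ e ∈ π, w e ^ 2 := by
    rw [Finset.mul_sum]
    exact Finset.sum_congr rfl fun e _ => by ring
  rw [this]
  by_cases h0 : ∑ e ∈ π, w e ^ 2 = 0
  · rw [h0]; simp
  · field_simp
    ring

/-- couplings on `π` bounded by `Λ` and boundary energy of `π` below `-t` -/
def LowE (J : Ω → Ed → ℝ) (h : Ω → Finset Ed → ℝ) (Λ : ℝ) (π : Finset Ed) (t : ℝ) : Set Ω :=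
  {ω | (∀ e ∈ π, |J ω e| ≤ Λ) ∧ h ω π < -t}

theorem EnS.measurableSet_LowE (hE : EnS μ P J U h) (Λ : ℝ) (π : Finset Ed) (t : ℝ) :
    MeasurableSet (LowE J h Λ π t) := by
  have h0 : LowE J h Λ π t = (⋂ e ∈ π, {ω | |J ω e| ≤ Λ}) ∩ {ω | h ω π < -t} := by
    ext ω
    simp [LowE]
  rw [h0]
  refine MeasurableSet.inter ?_ (measurableSet_lt (hE.mh π) measurable_const)
  refine Finset.measurableSet_biInter _ fun e _ => ?_
  exact measurableSet_le ((measurable_pi_apply e).comp hE.mJ).abs measurable_const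

/-- **One boundary.** -/
theorem EnS.prob_low [IsProbabilityMeasure P] (hE : EnS μ P J U h) (π : Finset Ed) {t Λ : ℝ}
    (ht : 0 ≤ t) :
    P (LowE J h Λ π t) ≤ ENNReal.ofReal (2 * Real.exp (-(t ^ 2 / (2 * (π.card * Λ ^ 2))))) := by
  classical
  choose τ hτ1 hτ2 hτ3 using hE.tog
  set R : Set Ω := LowE J h Λ π t with hR
  have hRm : MeasurableSet R := hE.measurableSet_LowE Λ π t
  set c : ℝ := 2 * Real.exp (-(t ^ 2 / (2 * (π.card * Λ ^ 2)))) with hc
  have h1 : ∀ D : Finset Ed, P R = ∫⁻ ω, R.indicator 1 (τ D ω) ∂P := by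
    intro D
    rw [← lintegral_indicator_one hRm]
    conv_lhs => rw [← (hτ1 D).map_eq]
    rw [lintegral_map (measurable_one.indicator hRm) (hτ1 D).measurable]
  have h2 : (2 ^ π.card : ℝ≥0∞) * P R = ∫⁻ ω, ∑ D ∈ π.powerset, R.indicator 1 (τ D ω) ∂P := by
    have h2' : ∫⁻ ω, ∑ D ∈ π.powerset, R.indicator (1 : Ω → ℝ≥0∞) (τ D ω) ∂P =
        ∑ D ∈ π.powerset, ∫⁻ ω, R.indicator (1 : Ω → ℝ≥0∞) (τ D ω) ∂P :=
      lintegral_finsetSum _ fun D _ => (measurable_one.indicator hRm).comp (hτ1 D).measurable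
    rw [h2', ← Finset.sum_congr rfl fun D _ => h1 D, Finset.sum_const, Finset.card_powerset]
    simp
  have h3 : ∫⁻ ω, ∑ D ∈ π.powerset, R.indicator (1 : Ω → ℝ≥0∞) (τ D ω) ∂P ≤
      ∫⁻ _, ENNReal.ofReal (c * 2 ^ π.card) ∂P := by
    refine lintegral_mono_ae ?_
    filter_upwards [ae_all_iff.2 hτ2, ae_all_iff.2 hτ3, hE.step, hE.nz] with ω a2 a3 a4 a5
    have h4 : ∑ D ∈ π.powerset, R.indicator (1 : Ω → ℝ≥0∞) (τ D ω) =
        (((π.powerset.filter fun D => τ D ω ∈ R).card : ℕ) : ℝ≥0∞) := by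
      rw [Finset.card_filter]
      push_cast
      refine Finset.sum_congr rfl fun D _ => ?_
      by_cases h : τ D ω ∈ R
      · simp [h]
      · simp [h]
    rw [h4, ← ENNReal.ofReal_natCast]
    refine ENNReal.ofReal_le_ofReal ?_
    by_cases hb : ∀ e ∈ π, |J ω e| ≤ Λ
    · have h5 : (π.powerset.filter fun D => τ D ω ∈ R) ⊆
          π.powerset.filter fun D => t ≤ |fE (h ω) π D| := by
        intro D hD
        rw [Finset.mem_filter] at hD ⊢
        refine ⟨hD.1, ?_⟩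
        have h6 : h (τ D ω) π < -t := hD.2.2
        rw [a3 D π] at h6
        have h7 : D ∆ π = π \ D := by
          rw [symmDiff_def, Finset.sup_eq_union,
            Finset.sdiff_eq_empty_iff_subset.2 (Finset.mem_powerset.1 hD.1), Finset.empty_union]
        rw [h7] at h6
        unfold fE
        rw [le_abs]
        right
        linarith
      have h8 := mcd_fE (w := fun e => |J ω e|) (fun D e => a4 D e) π t ht
      have h9 : (((π.powerset.filter fun D => τ D ω ∈ R).card : ℕ) : ℝ) ≤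
          ((π.powerset.filter fun D => t ≤ |fE (h ω) π D|).card : ℝ) := by
        exact_mod_cast Finset.card_le_card h5
      refine h9.trans (h8.trans ?_)
      have h10 : Real.exp (-(t ^ 2 / (2 * ∑ e ∈ π, |J ω e| ^ 2))) ≤
          Real.exp (-(t ^ 2 / (2 * (π.card * Λ ^ 2)))) := by
        rw [Real.exp_le_exp, neg_le_neg_iff]
        rcases π.eq_empty_or_nonempty with rfl | hne
        · simp
        · have h11 : ∑ e ∈ π, |J ω e| ^ 2 ≤ π.card * Λ ^ 2 := by
            rw [← nsmul_eq_mul]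
            refine Finset.sum_le_card_nsmul _ _ _ fun e he => ?_
            exact pow_le_pow_left₀ (abs_nonneg _) (hb e he) 2
          have h12 : 0 < ∑ e ∈ π, |J ω e| ^ 2 := by
            refine Finset.sum_pos (fun e _ => ?_) hne
            have : 0 < |J ω e| := abs_pos.2 (a5 e)
            positivity
          exact div_le_div_of_nonneg_left (by positivity) (by positivity) (by linarith)
      calc 2 * 2 ^ π.card * Real.exp (-(t ^ 2 / (2 * ∑ e ∈ π, |J ω e| ^ 2)))
          ≤ 2 * 2 ^ π.card * Real.exp (-(t ^ 2 / (2 * (π.card * Λ ^ 2)))) :=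
            mul_le_mul_of_nonneg_left h10 (by positivity)
        _ = c * 2 ^ π.card := by rw [hc]; ring
    · have h5 : (π.powerset.filter fun D => τ D ω ∈ R) = ∅ := by
        rw [Finset.filter_eq_empty_iff]
        intro D _ hD
        apply hb
        intro e he
        have := hD.1 e he
        rwa [a2 D e] at this
      rw [h5, Finset.card_empty]
      simp only [Nat.cast_zero]
      positivity
  rw [lintegral_const, measure_univ, mul_one, ← h2] at h3
  have h6 : ENNReal.ofReal (c * 2 ^ π.card) = 2 ^ π.card * ENNReal.ofReal c := by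
    rw [mul_comm, ENNReal.ofReal_mul (by positivity), ENNReal.ofReal_pow (by norm_num)]
    simp
  rw [h6] at h3
  have h7 : (2 ^ π.card : ℝ≥0∞) ≠ 0 := by positivity
  have h8 : (2 ^ π.card : ℝ≥0∞) ≠ ∞ := by finiteness
  exact (ENNReal.mul_le_mul_iff_right h7 h8).1 h3

end Pool.Agent.Helper99.MS
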