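import Pool.Agent.Helper99.MS.SubA
import Pool.Agent.Helper99.TJ.S6K

set_option autoImplicit false

/-!
# The upper bound for the wall energies, abstract form: union bound and counting of wall segments
-/

namespace Pool.Agent.Helper99.MS

open Pool.Agent.Helper60.TJ Pool.Agent.Helper99.TJ
open scoped symmDiff ENNReal
open MeasureTheory

variable {μ : Measure ℝ} {Ω : Type*} [MeasurableSpace Ω] {P : Measure Ω} {J : Ω → Ed → ℝ}
  {U : Ω → Ed → Bool} {h : Ω → Finset Ed → ℝ}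

/-- no low energies in the box `L`, in terms of `J` and `U` only -/
def LF (J : Ed → ℝ) (U : Ed → Bool) (L : ℕ) (Λ : ℝ) : Prop :=
  ∀ m : ℕ, 1 ≤ m → ∀ S : Finset Vx, S ⊆ box L → S.card = 2 * m → ∀ Y : Finset Ed,
    par (ind Y) = (fun v => decide (v ∈ S)) → -tt L Λ m ≤ en (wt J) U Y

/-- **Union bound.** -/
theorem EnS.exists_bad [IsProbabilityMeasure P] (hE : EnS μ P J U h) {q M : ℝ}
    (hM : ∀ Λ : ℝ, 0 < Λ → μ {x | Λ < |x|} ≤ ENNReal.ofReal (M / Λ ^ q)) (hM0 : 0 ≤ M)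
    [IsProbabilityMeasure μ] {L : ℕ} (hL : 1 ≤ L) {Λ : ℝ} (hΛ : 0 < Λ) :
    ∃ B : Set Ω, P B ≤ ENNReal.ofReal (4 / (2 * L + 1) ^ 2 + 4 * (2 * L + 1) ^ 2 * (M / Λ ^ q)) ∧
      ∀ᵐ ω ∂P, ω ∉ B → (∀ e ∈ BxE L, |J ω e| ≤ Λ) ∧ LF (J ω) (U ω) L Λ := by
  classical
  have hex : ∀ (m : ℕ) (S : Finset Vx), ∃ X : Finset Ed, S.card = 2 * m → S ⊆ box L →
      (X.card : ℝ) ≤ 9 * (2 * L + 1) * √m ∧
      par (ind X) = (fun v => decide (v ∈ S)) ∧ X ⊆ BxE L := by
    intro m S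
    by_cases h : S.card = 2 * m ∧ S ⊆ box L
    · obtain ⟨X, h1, h2, h3⟩ := TJ99.exists_join_box m S h.1 h.2
      refine ⟨X, fun _ _ => ⟨h1, h2, ?_⟩⟩
      intro e he
      obtain ⟨v, d, h4, h5, _⟩ := h3 e he
      rw [← h4]
      exact edg_mem_BxE h5 d
    · exact ⟨∅, fun h1 h2 => absurd ⟨h1, h2⟩ h⟩
  choose X hX using hex
  set B1 : Set Ω := ⋃ m ∈ Finset.Icc 1 (box L).card, ⋃ S ∈ (box L).powersetCard (2 * m),
      LowE J h Λ (X m S) (tt L Λ m) with hB1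
  set B2 : Set Ω := {ω | ∃ e ∈ BxE L, Λ < |J ω e|} with hB2
  have h1 : ∀ m ∈ Finset.Icc 1 (box L).card,
      P (⋃ S ∈ (box L).powersetCard (2 * m), LowE J h Λ (X m S) (tt L Λ m)) ≤
      ENNReal.ofReal (((((box L).powersetCard (2 * m)).card : ℕ) : ℝ) *
        (2 * (1 : ℕ) * ((2 * (L:ℝ) + 1) ^ (6 * m))⁻¹)) := by
    intro m hm
    rw [Finset.mem_Icc] at hm
    refine (measure_biUnion_finset_le _ _).trans ?_
    have h2 : ∀ S ∈ (box L).powersetCard (2 * m), P (LowE J h Λ (X m S) (tt L Λ m)) ≤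
        ENNReal.ofReal (2 * (1 : ℕ) * ((2 * (L:ℝ) + 1) ^ (6 * m))⁻¹) := by
      intro S hS
      obtain ⟨hS1, hS2⟩ := Finset.mem_powersetCard.1 hS
      obtain ⟨hX1, hX2, hX3⟩ := hX m S hS2 hS1
      refine (hE.prob_low (X m S) (tt_nonneg L hΛ.le m)).trans ?_
      refine ENNReal.ofReal_le_ofReal ?_
      rw [Nat.cast_one, mul_one]
      refine mul_le_mul_of_nonneg_left ?_ (by positivity)
      refine exp_le hΛ ?_ hX1 hL
      rw [Finset.card_pos]
      by_contra hne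
      rw [Finset.not_nonempty_iff_eq_empty] at hne
      have hSne : S.Nonempty := by
        rw [← Finset.card_pos]; omega
      obtain ⟨v, hv⟩ := hSne
      have h3 := congrFun hX2 v
      rw [hne, par_empty] at h3
      simp [hv] at h3
    refine (Finset.sum_le_sum h2).trans ?_
    rw [Finset.sum_const, nsmul_eq_mul, ENNReal.ofReal_mul (Nat.cast_nonneg _),
      ENNReal.ofReal_natCast]
  have hP1 : P B1 ≤ ENNReal.ofReal (4 / (2 * L + 1) ^ 2) := by
    rw [hB1]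
    refine (measure_biUnion_finset_le _ _).trans ((Finset.sum_le_sum h1).trans ?_)
    rw [← ENNReal.ofReal_sum_of_nonneg fun m _ => by positivity]
    refine ENNReal.ofReal_le_ofReal ((geom_bound L _ 1 hL).trans (le_of_eq ?_))
    rw [Nat.cast_one, mul_one]
  have hP2 : P B2 ≤ ENNReal.ofReal (4 * (2 * L + 1) ^ 2 * (M / Λ ^ q)) := by
    have h2 := prob_large hM hM0 L hΛ
    rw [← hE.law] at h2
    refine le_trans ?_ h2
    have h3 : B2 = J ⁻¹' {J : Ed → ℝ | ∃ e ∈ BxE L, Λ < |J e|} := rfl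
    rw [h3]
    exact Measure.le_map_apply hE.mJ.aemeasurable _
  refine ⟨B1 ∪ B2, ?_, ?_⟩
  · refine (measure_union_le _ _).trans ?_
    rw [ENNReal.ofReal_add (by positivity) (by positivity)]
    exact add_le_add hP1 hP2
  · filter_upwards [hE.bdry, hE.le] with ω hb hle hω
    rw [Set.mem_union, not_or] at hω
    have hw : ∀ e ∈ BxE L, |J ω e| ≤ Λ := by
      intro e he
      by_contra hcon
      exact hω.2 ⟨e, he, not_le.1 hcon⟩
    refine ⟨hw, fun m hm S hS hcard Y hY => ?_⟩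
    by_contra hcon
    push Not at hcon
    apply hω.1
    rw [hB1]
    simp only [Set.mem_iUnion]
    obtain ⟨hX1, hX2, hX3⟩ := hX m S hcard hS
    refine ⟨m, Finset.mem_Icc.2 ⟨hm, ?_⟩, S, Finset.mem_powersetCard.2 ⟨hS, hcard⟩,
      fun e he => hw e (hX3 he), ?_⟩
    · have := Finset.card_le_card hS
      omega
    · have h2 : h ω (X m S) = h ω Y := hb _ _ (isCyc_symmDiff_of_eq (by rw [hY, hX2]))
      rw [h2]
      exact (hle Y).trans_lt hcon

/-! ### counting -/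

theorem count_gen' {p : XX} (hdeg : Deg2 (wl p)) (hac : Ac (wl p))
    {U₁ : Ed → Bool} (hU : ∀ C : Finset Ed, IsCyc C → 0 ≤ en (wt p.1) U₁ C) {n m : ℕ}
    (hm : 1 ≤ m) (hmn : m ≤ n) {Λ lam : ℝ} (hΛ : 0 < Λ) (hlam : 0 < lam)
    (hgood : LF p.1 U₁ (2 * n) Λ) (Z : Finset DE)
    (hZ : ∀ z ∈ Z, z.1 ∈ box n ∧ On (wl p) z ∧ en (wt p.1) U₁ (sg' (wl p) m z) ≤ -lam) :
    (Z.card : ℝ) ≤ 4 * m * NB (2 * n) Λ lam := by
  obtain ⟨Z', hsub, hdis, hcard⟩ := exists_disjoint hdeg hm Z fun z hz => (hZ z hz).2.1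
  have h4 : (Z.card : ℝ) ≤ 4 * m * Z'.card := by exact_mod_cast hcard
  refine h4.trans ?_
  refine mul_le_mul_of_nonneg_left ?_ (by positivity)
  rcases Nat.eq_zero_or_pos Z'.card with h0 | hpos
  · rw [h0]; simp only [Nat.cast_zero]; exact NB_nonneg _
  obtain ⟨S, hS, m', hm', hSc, hpar⟩ := exists_bdry Z' (sg' (wl p) m) (fun z => z.1)
    (fun z => z.1 + pos (yz p z) m) hdis
    (fun z hz => par_sg' hdeg hac (hZ z (hsub hz)).2.1 m) (B := box (2 * n))
    (fun z hz => box_mono (by omega) (hZ z (hsub hz)).1)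
    (fun z hz => box_mono (by omega) (add_mem_box (hZ z (hsub hz)).1 (pos_mem_box (yz p z) m)))
  set Y := Z'.biUnion (sg' (wl p) m) with hY
  have hen : en (wt p.1) U₁ Y ≤ -(Z'.card * lam) := by
    rw [hY, en_biUnion hdis]
    have := Finset.sum_le_card_nsmul Z' (fun z => en (wt p.1) U₁ (sg' (wl p) m z)) (-lam)
      (fun z hz => (hZ z (hsub hz)).2.2)
    rw [nsmul_eq_mul] at this
    linarith
  have hZpos : (0:ℝ) < Z'.card := by exact_mod_cast hpos
  rcases Nat.eq_zero_or_pos m' with h0 | hm'pos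
  · exfalso
    rw [h0, mul_zero, Finset.card_eq_zero] at hSc
    rw [hSc] at hpar
    have hcyc : IsCyc Y := by
      rw [isCyc_iff, hpar]
      funext v; simp
    have h5 := hU Y hcyc
    have : 0 < Z'.card * lam := by positivity
    linarith
  · refine arith hΛ hlam hpos hm' ?_
    have h6 := hgood m' hm'pos S hS hSc Y hpar
    linarith

theorem count_abs' {p : XX} (hdeg : Deg2 (wl p)) (hac : Ac (wl p))
    (hU : ∀ C : Finset Ed, IsCyc C → 0 ≤ en (wt p.1) p.2.1 C)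
    (hU' : ∀ C : Finset Ed, IsCyc C → 0 ≤ en (wt p.1) p.2.2 C)
    {n m : ℕ} (hmn : m ≤ n) {Λ lam : ℝ}
    (hΛ : 0 < Λ) (hlam : 0 < lam) (hgood : LF p.1 p.2.1 (2 * n) Λ)
    (hgood' : LF p.1 p.2.2 (2 * n) Λ) :
    ((HZ p n m lam).card : ℝ) ≤ 8 * n * NB (2 * n) Λ lam := by
  classical
  rcases Nat.eq_zero_or_pos m with rfl | hm
  · have : HZ p n 0 lam = ∅ := by
      unfold HZ
      rw [Finset.filter_eq_empty_iff]
      rintro z _ ⟨_, h⟩
      simp only [Vn, Finset.range_zero, Finset.sum_empty, abs_zero] at h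
      linarith
    rw [this]
    simp only [Finset.card_empty, Nat.cast_zero]
    have := NB_nonneg (2 * n) (Λ := Λ) (lam := lam)
    positivity
  set Z1 := (HZ p n m lam).filter fun z => Vn m (yz p z) ≤ -lam with hZ1
  set Z2 := (HZ p n m lam).filter fun z => ¬ Vn m (yz p z) ≤ -lam with hZ2
  have hsplit : Z1.card + Z2.card = (HZ p n m lam).card := Finset.card_filter_add_card_filter_not _
  have hb1 : (Z1.card : ℝ) ≤ 4 * m * NB (2 * n) Λ lam := by
    refine count_gen' hdeg hac hU hm hmn hΛ hlam hgood Z1 ?_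
    intro z hz
    rw [hZ1, Finset.mem_filter, HZ, Finset.mem_filter, Finset.mem_product] at hz
    obtain ⟨⟨⟨h1, _⟩, h2, _⟩, h3⟩ := hz
    exact ⟨h1, h2, by rw [en_sg' hdeg hac h2]; exact h3⟩
  have hb2 : (Z2.card : ℝ) ≤ 4 * m * NB (2 * n) Λ lam := by
    refine count_gen' hdeg hac hU' hm hmn hΛ hlam hgood' Z2 ?_
    intro z hz
    rw [hZ2, Finset.mem_filter, HZ, Finset.mem_filter, Finset.mem_product] at hz
    obtain ⟨⟨⟨h1, _⟩, h2, h4⟩, h3⟩ := hz
    refine ⟨h1, h2, ?_⟩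
    have h5 : en (wt p.1) p.2.2 (sg' (wl p) m z) = - en (wt p.1) p.2.1 (sg' (wl p) m z) := by
      apply en_wall
      intro e he
      unfold sg' at he
      obtain ⟨i, _, rfl⟩ := Finset.mem_image.1 he
      exact on_iter hdeg h2 i
    rw [h5, en_sg' hdeg hac h2]
    push Not at h3
    rcases abs_cases (Vn m (yz p z)) with ⟨h6, _⟩ | ⟨h6, _⟩ <;> linarith
  have hNB := NB_nonneg (2 * n) (Λ := Λ) (lam := lam)
  have hmn' : (m:ℝ) ≤ n := by exact_mod_cast hmn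
  calc ((HZ p n m lam).card : ℝ) = Z1.card + Z2.card := by exact_mod_cast hsplit.symm
    _ ≤ 8 * m * NB (2 * n) Λ lam := by linarith
    _ ≤ 8 * n * NB (2 * n) Λ lam := by
      refine mul_le_mul_of_nonneg_right ?_ hNB
      linarith

end Pool.Agent.Helper99.MS
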